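import Mathlib

set_option autoImplicit false

namespace Pool.Agent.Helper778.AN

open Polynomial Finset

section Cont
variable {A : Type*} [CommRing A]

/-- Right continuants.  Think of a directed acyclic graph on nodes `0,1,…,k`, with an edge
`i → j+1` of weight `w i j` for `i ≤ j < k`; `R k w i` is the total weight of the paths from
node `i` to node `k`. -/
noncomputable def R (k : ℕ) (w : ℕ → ℕ → A) (i : ℕ) : A :=
  if _h : i < k then ∑ j : {j // j ∈ Finset.Ico i k}, w i j.1 * R k w (j.1 + 1) else 1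
termination_by k - i
decreasing_by
  have := j.2
  rw [Finset.mem_Ico] at this
  omega

theorem R_of_ge {k : ℕ} (w : ℕ → ℕ → A) {i : ℕ} (h : k ≤ i) : R k w i = 1 := by
  rw [R, dif_neg (by omega)]

theorem R_of_lt {k : ℕ} (w : ℕ → ℕ → A) {i : ℕ} (h : i < k) :
    R k w i = ∑ j ∈ Finset.Ico i k, w i j * R k w (j + 1) := by
  rw [R, dif_pos h]
  exact Finset.sum_coe_sort (Finset.Ico i k) (fun j => w i j * R k w (j + 1))

/-- Left continuants: `L w n` is the total weight of the paths from node `0` to node `n`. -/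
noncomputable def L (w : ℕ → ℕ → A) : ℕ → A
  | 0 => 1
  | n + 1 => ∑ i : Fin (n + 1), L w i.1 * w i.1 n
decreasing_by exact i.2

theorem L_zero (w : ℕ → ℕ → A) : L w 0 = 1 := by rw [L]

theorem L_succ (w : ℕ → ℕ → A) (n : ℕ) :
    L w (n + 1) = ∑ i ∈ Finset.range (n + 1), L w i * w i n := by
  rw [L]
  exact (Finset.sum_range (fun i => L w i * w i n)).symm

end Cont

/-- The leading (Laguerre / `sl_2`) weights. -/
noncomputable def om (k : ℕ) (i j : ℕ) : ℚ[X] :=
  if j = i then X + C ((k : ℚ) - 1 - 2 * i)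
  else if j = i + 1 then C (((i : ℚ) + 1) * ((k : ℚ) - i - 1)) else 0

noncomputable def c0 (k : ℕ) (f : ℚ[X]) (i : ℕ) : ℚ := if i = 0 then f.coeff (k - 1) else 0

noncomputable def nu (k : ℕ) (f : ℚ[X]) (i j : ℕ) : ℚ :=
  if i = 0 then (-1) ^ (j - 1) * f.coeff (k - 1 - j) else 0

noncomputable def w0 (k : ℕ) (f : ℚ[X]) (i j : ℕ) : ℚ[X] :=
  if j = i then X + C (c0 k f i) else (-1) ^ (j - i - 1) * C (nu k f i j)

noncomputable def beta (k : ℕ) (i j : ℕ) : ℚ :=
  ((i : ℚ) + 1) * ((k : ℚ) - i - 1) - ((j : ℚ) - i - 1) / k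

/-- The weights of the one-parameter family; the outer variable is the parameter (after the
substitution `z ↦ z T`). -/
noncomputable def W (k : ℕ) (f : ℚ[X]) (y : ℕ → ℕ → ℚ) (i j : ℕ) : ℚ[X][X] :=
  if j = i then C (X + C ((k : ℚ) - 1 - 2 * i)) * X + C (C (c0 k f i))
  else (-1) ^ (j - i - 1) *
    (C (C (beta k i j)) * X ^ 2 + C (C (y i j)) * X + C (C (nu k f i j)))

def Q (F : ℚ[X][X]) (h : ℚ[X]) : Prop :=
  ∀ m l : ℕ, m ≤ l → (F.coeff m).coeff l = if l = m then h.coeff m else 0

/-- The clique on `B` together with a path `0,1,…,k-1`; the path vertex `i` is joined to all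
clique vertices except those in `S i`. -/
def cliquePath {B : Type} (S : ℕ → Finset B) (k : ℕ) : SimpleGraph (B ⊕ Fin k) where
  Adj u v :=
    match u, v with
    | Sum.inl b, Sum.inl b' => b ≠ b'
    | Sum.inl b, Sum.inr i => b ∉ S i.1
    | Sum.inr i, Sum.inl b => b ∉ S i.1
    | Sum.inr i, Sum.inr j => i.1 + 1 = j.1 ∨ j.1 + 1 = i.1
  symm := ⟨by
    rintro (b | i) (b' | j) h
    · exact h.symm
    · exact h
    · exact h
    · exact h.symm⟩
  loopless := ⟨by
    rintro (b | i) h
    · exact h rfl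
    · rcases h with h | h <;> omega⟩

end Pool.Agent.Helper778.AN
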