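import Pool.Agent.Helper778.AN.Base

set_option autoImplicit false
set_option maxHeartbeats 4000000

namespace Pool.Agent.Helper778.AN

open Polynomial Finset

section

variable {A : Type*} [CommRing A]


theorem R_sub (k : ℕ) (w w' : ℕ → ℕ → A) :
    R k w' 0 - R k w 0 =
      ∑ i ∈ range k, L w i * ∑ j ∈ Ico i k, (w' i j - w i j) * R k w' (j + 1) := by
  have hE : ∀ i ∈ range k, L w i * ∑ j ∈ Ico i k, (w' i j - w i j) * R k w' (j + 1)
      = L w i * (R k w' i - R k w i)
        - ∑ j ∈ Ico i k, L w i * w i j * (R k w' (j + 1) - R k w (j + 1)) := by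
    intro i hi
    have hik : i < k := Finset.mem_range.mp hi
    rw [R_of_lt w' hik, R_of_lt w hik, ← Finset.sum_sub_distrib, Finset.mul_sum, Finset.mul_sum,
      ← Finset.sum_sub_distrib]
    refine Finset.sum_congr rfl fun j _ => ?_
    ring
  rw [Finset.sum_congr rfl hE, Finset.sum_sub_distrib]
  have h2 : ∑ i ∈ range k, ∑ j ∈ Ico i k, L w i * w i j * (R k w' (j + 1) - R k w (j + 1))
      = ∑ j ∈ range k, L w (j + 1) * (R k w' (j + 1) - R k w (j + 1)) := by
    rw [Finset.sum_comm' (t' := range k) (s' := fun j => range (j + 1))]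
    · refine Finset.sum_congr rfl fun j _ => ?_
      rw [L_succ, Finset.sum_mul]
    · intro x y
      simp only [Finset.mem_range, Finset.mem_Ico]
      omega
  rw [h2, ← Finset.sum_sub_distrib]
  have h3 := Finset.sum_range_sub' (fun i => L w i * (R k w' i - R k w i)) k
  rw [h3, L_zero, R_of_ge w' (le_refl k), R_of_ge w (le_refl k)]
  ring

end

section

variable {A : Type*} [CommRing A]

theorem L_eq_R (k : ℕ) (w : ℕ → ℕ → A) : L w k = R k w 0 := by
  have h1 : ∑ i ∈ Finset.range k, L w i * R k w i =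
      ∑ j ∈ Finset.range k, L w (j + 1) * R k w (j + 1) := by
    calc ∑ i ∈ Finset.range k, L w i * R k w i
        = ∑ i ∈ Finset.range k, ∑ j ∈ Finset.Ico i k, L w i * w i j * R k w (j + 1) := by
          refine Finset.sum_congr rfl fun i hi => ?_
          rw [R_of_lt w (Finset.mem_range.1 hi), Finset.mul_sum]
          exact Finset.sum_congr rfl fun j _ => (mul_assoc _ _ _).symm
      _ = ∑ j ∈ Finset.range k, ∑ i ∈ Finset.range (j + 1), L w i * w i j * R k w (j + 1) := by
          refine Finset.sum_comm' fun i j => ?_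
          simp only [Finset.mem_range, Finset.mem_Ico]
          omega
      _ = ∑ j ∈ Finset.range k, L w (j + 1) * R k w (j + 1) := by
          refine Finset.sum_congr rfl fun j _ => ?_
          rw [L_succ, Finset.sum_mul]
  have h2 := Finset.sum_range_sub (fun i => L w i * R k w i) k
  rw [Finset.sum_sub_distrib, h1, sub_self] at h2
  rw [L_zero, one_mul, R_of_ge w le_rfl, mul_one] at h2
  exact sub_eq_zero.1 h2.symm

end

section

variable {A : Type*} [CommRing A]

theorem map_R {B : Type*} [CommRing B] (φ : A →+* B) (k : ℕ) (w : ℕ → ℕ → A) (i : ℕ) :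
    φ (R k w i) = R k (fun a b => φ (w a b)) i := by
  have main : ∀ (n : ℕ) (i : ℕ), k - i = n → φ (R k w i) = R k (fun a b => φ (w a b)) i := by
    intro n
    induction n using Nat.strong_induction_on with
    | _ n ih =>
      intro i hi
      by_cases h : i < k
      · rw [R_of_lt w h, R_of_lt (fun a b => φ (w a b)) h, map_sum]
        apply Finset.sum_congr rfl
        intro j hj
        rw [Finset.mem_Ico] at hj
        rw [map_mul, ih (k - (j + 1)) (by omega) (j + 1) rfl]
      · rw [R_of_ge w (by omega), R_of_ge (fun a b => φ (w a b)) (by omega), map_one]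
  exact main _ i rfl

end

section

variable {A : Type*} [CommRing A]

theorem R_congr (k : ℕ) (w w' : ℕ → ℕ → A) (h : ∀ i j, i ≤ j → j < k → w i j = w' i j)
    (i : ℕ) : R k w i = R k w' i := by
  induction hn : k - i using Nat.strong_induction_on generalizing i with
  | _ n ih =>
    by_cases hi : k ≤ i
    · rw [R_of_ge w hi, R_of_ge w' hi]
    · push Not at hi
      rw [R_of_lt w hi, R_of_lt w' hi]
      refine Finset.sum_congr rfl fun j hj => ?_
      rw [Finset.mem_Ico] at hj
      rw [h i j hj.1 hj.2, ih (k - (j + 1)) (by omega) (j + 1) rfl]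

end

section

variable {A : Type*} [CommRing A]

theorem L_congr (n : ℕ) (w w' : ℕ → ℕ → A) (h : ∀ i j, i ≤ j → j < n → w i j = w' i j) :
    L w n = L w' n := by
  induction n using Nat.strong_induction_on with
  | _ n ih =>
    cases n with
    | zero => rw [L_zero, L_zero]
    | succ n =>
      rw [L_succ, L_succ]
      refine Finset.sum_congr rfl fun i hi => ?_
      rw [Finset.mem_range] at hi
      rw [ih i hi (fun a b hab hb => h a b hab (by omega)), h i n (by omega) (by omega)]

end

section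

variable {A : Type*} [CommRing A]

theorem R_top (k : ℕ) (w : ℕ → ℕ → A[X])
    (h : ∀ i j, i ≤ j → j < k → (w i j).natDegree ≤ j - i + 1) (i : ℕ) (hi : i ≤ k) :
    (R k w i).natDegree ≤ k - i ∧
      (R k w i).coeff (k - i) = R k (fun a b => (w a b).coeff (b - a + 1)) i := by
  obtain ⟨n, hn⟩ : ∃ n, n = k - i := ⟨_, rfl⟩
  induction n using Nat.strong_induction_on generalizing i with
  | _ n ih =>
    rcases hi.eq_or_lt with rfl | hlt
    · rw [R_of_ge w le_rfl, R_of_ge _ le_rfl, Nat.sub_self]
      simp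
    · rw [R_of_lt w hlt, R_of_lt _ hlt]
      have hterm : ∀ j ∈ Finset.Ico i k, (w i j * R k w (j + 1)).natDegree ≤ k - i ∧
          (w i j * R k w (j + 1)).coeff (k - i) =
            (w i j).coeff (j - i + 1) * R k (fun a b => (w a b).coeff (b - a + 1)) (j + 1) := by
        intro j hj
        rw [Finset.mem_Ico] at hj
        obtain ⟨h1, h2⟩ := ih (k - (j + 1)) (by omega) (j + 1) (by omega) rfl
        have h3 := h i j hj.1 hj.2
        have e : k - i = (j - i + 1) + (k - (j + 1)) := by omega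
        refine ⟨?_, ?_⟩
        · rw [e]
          exact Polynomial.natDegree_mul_le_of_le h3 h1
        · rw [e, Polynomial.coeff_mul_add_eq_of_natDegree_le h3 h1, h2]
      refine ⟨Polynomial.natDegree_sum_le_of_forall_le _ _ fun j hj => (hterm j hj).1, ?_⟩
      rw [Polynomial.finset_sum_coeff]
      exact Finset.sum_congr rfl fun j hj => (hterm j hj).2

end

section

variable {A : Type*} [CommRing A]

theorem L_top (n : ℕ) (w : ℕ → ℕ → A[X])
    (h : ∀ i j, i ≤ j → j < n → (w i j).natDegree ≤ j - i + 1) :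
    (L w n).natDegree ≤ n ∧
      (L w n).coeff n = L (fun a b => (w a b).coeff (b - a + 1)) n := by
  suffices H : ∀ m, m ≤ n → (L w m).natDegree ≤ m ∧
      (L w m).coeff m = L (fun a b => (w a b).coeff (b - a + 1)) m from H n le_rfl
  intro m
  induction m using Nat.strong_induction_on with
  | _ m ih =>
    intro hm
    cases m with
    | zero =>
      rw [L_zero, L_zero]
      exact ⟨by simp, by simp⟩
    | succ m =>
      rw [L_succ, L_succ]
      constructor
      · apply Polynomial.natDegree_sum_le_of_forall_le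
        intro i hi
        have hi' : i ≤ m := by rw [Finset.mem_range] at hi; omega
        have h1 := (ih i (by omega) (by omega)).1
        have h2 := h i m hi' (by omega)
        refine Polynomial.natDegree_mul_le.trans ?_
        omega
      · rw [Polynomial.finsetSum_coeff]
        apply Finset.sum_congr rfl
        intro i hi
        have hi' : i ≤ m := by rw [Finset.mem_range] at hi; omega
        obtain ⟨h1, h3⟩ := ih i (by omega) (by omega)
        have h2 := h i m hi' (by omega)
        have h4 : m + 1 = i + (m - i + 1) := by omega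
        conv_lhs => rw [h4]
        rw [Polynomial.coeff_mul_add_eq_of_natDegree_le h1 h2, h3]

end

section

theorem L_om_rec (k i : ℕ) :
    L (om k) (i + 1) = (X + C ((k : ℚ) - 1 - 2 * i)) * L (om k) i
      + C ((i : ℚ) * ((k : ℚ) - i)) * L (om k) (i - 1) := by
  rw [L_succ]
  rcases i with _ | n
  · simp [om, mul_comm]
  · rw [Finset.sum_range_succ, Finset.sum_range_succ, Finset.sum_eq_zero]
    · have h1 : om k (n + 1) (n + 1) = X + C ((k : ℚ) - 1 - 2 * ((n + 1 : ℕ) : ℚ)) := by
        simp [om]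
      have h2 : om k n (n + 1) = C (((n : ℚ) + 1) * ((k : ℚ) - n - 1)) := by
        simp [om]
      rw [h1, h2]
      have h3 : (((n + 1 : ℕ) : ℚ) * ((k : ℚ) - ((n + 1 : ℕ) : ℚ)))
          = (((n : ℚ) + 1) * ((k : ℚ) - n - 1)) := by
        push_cast; ring
      rw [h3]
      simp only [Nat.add_sub_cancel]
      ring
    · intro a ha
      rw [Finset.mem_range] at ha
      have : om k a (n + 1) = 0 := by
        unfold om
        rw [if_neg (by omega), if_neg (by omega)]
      rw [this, mul_zero]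

end

section

theorem R_om_rec (k j : ℕ) (hj : j < k) :
    R k (om k) j = (X + C ((k : ℚ) - 1 - 2 * j)) * R k (om k) (j + 1)
      + C (((j : ℚ) + 1) * ((k : ℚ) - (j + 1))) * R k (om k) (j + 2) := by
  have h0 : om k j j = X + C ((k : ℚ) - 1 - 2 * j) := by
    unfold om
    rw [if_pos rfl]
  have h1 : om k j (j + 1) = C (((j : ℚ) + 1) * ((k : ℚ) - (j + 1))) := by
    unfold om
    rw [if_neg (by omega), if_pos rfl, ← sub_sub]
  have h2 : ∀ b ∈ Finset.Ico (j + 2) k, om k j b * R k (om k) (b + 1) = 0 := by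
    intro b hb
    have hb' := (Finset.mem_Ico.1 hb).1
    unfold om
    rw [if_neg (by omega), if_neg (by omega), zero_mul]
  rw [R_of_lt (om k) hj, Finset.sum_eq_sum_Ico_succ_bot hj, h0]
  congr 1
  by_cases hj2 : j + 1 < k
  · rw [Finset.sum_eq_sum_Ico_succ_bot hj2, h1, Finset.sum_eq_zero h2, add_zero]
  · have hk : k = j + 1 := by omega
    subst hk
    rw [Finset.Ico_self, Finset.sum_empty]
    push_cast
    rw [sub_self, mul_zero, C_0, zero_mul]

end

section

theorem laguerre_coeff (k : ℕ) (l : ℕ → ℚ[X]) (h0 : l 0 = 1)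
    (hl : ∀ i : ℕ, l (i + 1) = (X + C ((k : ℚ) - 1 - 2 * i)) * l i
      + C ((i : ℚ) * ((k : ℚ) - i)) * l (i - 1)) (n : ℕ) :
    (∀ m, (l n).coeff m = (n.choose m : ℚ) * ∏ s ∈ Finset.Ico m n, ((k:ℚ) - 1 - s)) ∧
    (∀ m, (l (n + 1)).coeff m =
      ((n + 1).choose m : ℚ) * ∏ s ∈ Finset.Ico m (n + 1), ((k:ℚ) - 1 - s)) := by
  induction n with
  | zero =>
    constructor
    · intro m
      rw [h0]
      rcases m with _ | m
      · simp
      · simp [Polynomial.coeff_one]
    · intro m
      rw [hl 0, h0]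
      rcases m with _ | _ | m
      · simp
      · simp [Polynomial.coeff_X, Polynomial.coeff_C, Polynomial.coeff_one]
      · simp [Polynomial.coeff_X, Polynomial.coeff_C, Polynomial.coeff_one,
          Nat.choose_eq_zero_of_lt]
  | succ p ih =>
    obtain ⟨ih1, ih2⟩ := ih
    refine ⟨ih2, fun m => ?_⟩
    rw [hl (p + 1), Nat.add_sub_cancel]
    have hexp : (X + C ((k : ℚ) - 1 - 2 * ((p + 1 : ℕ) : ℚ))) * l (p + 1) +
        C (((p + 1 : ℕ) : ℚ) * ((k : ℚ) - ((p + 1 : ℕ) : ℚ))) * l p =
        X * l (p + 1) + C ((k : ℚ) - 1 - 2 * ((p + 1 : ℕ) : ℚ)) * l (p + 1) +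
        C (((p + 1 : ℕ) : ℚ) * ((k : ℚ) - ((p + 1 : ℕ) : ℚ))) * l p := by ring
    rw [hexp, Polynomial.coeff_add, Polynomial.coeff_add, Polynomial.coeff_C_mul,
      Polynomial.coeff_C_mul, ih1, ih2]
    rcases m with _ | m
    · rw [Polynomial.coeff_X_mul_zero]
      rw [Finset.prod_Ico_succ_top (show 0 ≤ p + 1 by omega),
        Finset.prod_Ico_succ_top (show 0 ≤ p by omega)]
      simp only [Nat.choose_zero_right]
      push_cast
      ring
    · rw [Polynomial.coeff_X_mul, ih2]
      rcases lt_trichotomy m p with hm | hm | hm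
      · -- m + 1 ≤ p
        rw [Finset.prod_Ico_succ_top (show m + 1 ≤ p + 1 by omega),
          Finset.prod_Ico_succ_top (show m + 1 ≤ p by omega),
          Finset.prod_Ico_succ_top (show m ≤ p by omega),
          Finset.prod_eq_prod_Ico_succ_bot hm]
        set P := ∏ s ∈ Finset.Ico (m + 1) p, ((k:ℚ) - 1 - s) with hP
        have h1 : ((p:ℚ) + 1) * (p.choose m : ℚ) =
            ((p.choose m : ℚ) + (p.choose (m + 1) : ℚ)) * ((m:ℚ) + 1) := by
          have := Nat.add_one_mul_choose_eq p m
          have h2 : ((p + 1).choose (m + 1)) = p.choose m + p.choose (m + 1) := Nat.choose_succ_succ _ _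
          rw [h2] at this
          exact_mod_cast this
        have h2 : ((p + 1).choose m : ℚ) * ((p:ℚ) + 1 - m) =
            ((p.choose m : ℚ) + (p.choose (m + 1) : ℚ)) * ((m:ℚ) + 1) := by
          have h3 := Nat.choose_succ_right_eq (p + 1) m
          have h4 : ((p + 1).choose (m + 1)) = p.choose m + p.choose (m + 1) := Nat.choose_succ_succ _ _
          rw [h4] at h3
          have h5 : (((p + 1 - m : ℕ)) : ℚ) = (p:ℚ) + 1 - m := by
            rw [Nat.cast_sub (by omega)]; push_cast; ring
          have h6 : (((p.choose m + p.choose (m + 1)) * (m + 1) : ℕ) : ℚ) =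
              (((p + 1).choose m * (p + 1 - m) : ℕ) : ℚ) := by rw [h3]
          push_cast at h6
          rw [← h5]
          rw [Nat.cast_sub (by omega)] at h6 ⊢
          push_cast at h6 ⊢
          linarith
        have h3 : ((p + 1 + 1).choose (m + 1) : ℚ) =
            ((p + 1).choose m : ℚ) + ((p.choose m : ℚ) + (p.choose (m + 1) : ℚ)) := by
          have h4 : ((p + 1 + 1).choose (m + 1)) = (p + 1).choose m + (p.choose m + p.choose (m + 1)) := by
            rw [Nat.choose_succ_succ (p + 1) m, Nat.choose_succ_succ p m]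
          exact_mod_cast h4
        have h4 : ((p + 1).choose (m + 1) : ℚ) = (p.choose m : ℚ) + (p.choose (m + 1) : ℚ) := by
          exact_mod_cast Nat.choose_succ_succ p m
        rw [h3, h4]
        push_cast
        linear_combination (-(P * ((k:ℚ) - 1 - p))) * (h1 - h2)
      · subst hm
        rw [Finset.Ico_eq_empty (show ¬ (m + 1 < m) by omega), Finset.Ico_self,
          Nat.Ico_succ_singleton, Nat.Ico_succ_singleton]
        simp only [Finset.prod_singleton, Finset.prod_empty, Nat.choose_succ_self, Nat.choose_self]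
        rw [show (m + 1 + 1).choose (m + 1) = m + 2 by
          rw [Nat.choose_succ_self_right], show (m + 1).choose m = m + 1 by
          rw [Nat.choose_succ_self_right]]
        push_cast
        ring
      · have e1 : (p.choose (m + 1)) = 0 := Nat.choose_eq_zero_of_lt (by omega)
        have e2 : ((p + 1).choose (m + 1)) = 0 := Nat.choose_eq_zero_of_lt (by omega)
        rw [e1, e2]
        rcases (show m = p + 1 ∨ p + 1 < m by omega) with hm2 | hm2
        · subst hm2
          simp
        · rw [Nat.choose_eq_zero_of_lt (show p + 1 < m by omega),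
            Nat.choose_eq_zero_of_lt (show p + 1 + 1 < m + 1 by omega)]
          simp

theorem laguerre (k : ℕ) (l : ℕ → ℚ[X]) (h0 : l 0 = 1)
    (hl : ∀ i : ℕ, l (i + 1) = (X + C ((k : ℚ) - 1 - 2 * i)) * l i
      + C ((i : ℚ) * ((k : ℚ) - i)) * l (i - 1)) : l k = X ^ k := by
  ext m
  rw [(laguerre_coeff k l h0 hl k).1 m, Polynomial.coeff_X_pow]
  rcases lt_trichotomy m k with h | h | h
  · rw [if_neg (by omega)]
    have : ∏ s ∈ Finset.Ico m k, ((k:ℚ) - 1 - s) = 0 := by
      apply Finset.prod_eq_zero (i := k - 1) (by rw [Finset.mem_Ico]; omega)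
      rw [Nat.cast_sub (by omega)]
      push_cast; ring
    rw [this, mul_zero]
  · subst h
    simp
  · rw [if_neg (by omega), Nat.choose_eq_zero_of_lt h]
    simp

end

section

theorem monic_facts (k : ℕ) (l r : ℕ → ℚ[X]) (h0 : l 0 = 1) (hk : r k = 1)
    (hl : ∀ i : ℕ, l (i + 1) = (X + C ((k : ℚ) - 1 - 2 * i)) * l i
      + C ((i : ℚ) * ((k : ℚ) - i)) * l (i - 1))
    (hr : ∀ j : ℕ, j < k → r j = (X + C ((k : ℚ) - 1 - 2 * j)) * r (j + 1)
      + C (((j : ℚ) + 1) * ((k : ℚ) - (j + 1))) * r (j + 2)) :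
    (∀ i, (l i).natDegree ≤ i ∧ (l i).coeff i = 1) ∧
    (∀ j, j ≤ k → (r j).natDegree ≤ k - j ∧ (r j).coeff (k - j) = 1) := by
  have key : ∀ (p q : ℚ[X]) (n : ℕ) (a b : ℚ), p.natDegree ≤ n → p.coeff n = 1 →
      (b = 0 ∨ q.natDegree < n + 1) →
      ((X + C a) * p + C b * q).natDegree ≤ n + 1 ∧
      ((X + C a) * p + C b * q).coeff (n + 1) = 1 := by
    intro p q n a b hp hc hq
    constructor
    · refine (natDegree_add_le _ _).trans (max_le ?_ ?_)
      · refine natDegree_mul_le.trans ?_
        have : (X + C a : ℚ[X]).natDegree ≤ 1 := (natDegree_X_add_C a).le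
        omega
      · rcases hq with h | h
        · rw [h]; simp
        · exact (natDegree_C_mul_le _ _).trans (by omega)
    · rw [add_mul, coeff_add, coeff_add, coeff_X_mul, coeff_C_mul, coeff_C_mul, hc,
        coeff_eq_zero_of_natDegree_lt (n := n + 1) (by omega)]
      rcases hq with h | h
      · rw [h]; simp
      · rw [coeff_eq_zero_of_natDegree_lt h]; simp
  constructor
  · intro i
    induction i using Nat.strong_induction_on with
    | _ i ih =>
      rcases i with _ | i
      · rw [h0]; simp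
      · rw [hl i]
        have h1 := ih i (by omega)
        refine key _ _ i _ _ h1.1 h1.2 ?_
        rcases i with _ | i
        · left; simp
        · right
          have h2 := (ih i (by omega)).1
          simp only [Nat.add_sub_cancel]
          omega
  · have main : ∀ m j : ℕ, j + m = k → (r j).natDegree ≤ m ∧ (r j).coeff m = 1 := by
      intro m
      induction m using Nat.strong_induction_on with
      | _ m ih =>
        intro j hj
        rcases m with _ | m
        · have : j = k := by omega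
          rw [this, hk]; simp
        · rw [hr j (by omega)]
          have h1 := ih m (by omega) (j + 1) (by omega)
          refine key _ _ m _ _ h1.1 h1.2 ?_
          rcases m with _ | m
          · left
            have : (k : ℚ) = j + 1 := by
              have : k = j + 1 := by omega
              rw [this]; push_cast; ring
            rw [this]; ring
          · right
            have h2 := (ih m (by omega) (j + 2) (by omega)).1
            omega
    intro j hj
    exact main (k - j) j (by omega)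

end

section

theorem antidiff (n : ℕ) (q : ℚ[X]) (hq : q.natDegree ≤ n) (v : ℚ) :
    ∃ p : ℚ[X], p.natDegree ≤ n + 1 ∧ p.coeff (n + 1) * ((n : ℚ) + 1) = q.coeff n ∧
      p.eval 0 = v ∧ ∀ x : ℚ, p.eval (x + 1) - p.eval x = q.eval x := by
  induction n generalizing q v with
  | zero =>
    have h := Polynomial.eq_C_of_natDegree_le_zero hq
    generalize q.coeff 0 = a at h
    subst h
    refine ⟨C a * X + C v, ?_, ?_, ?_, ?_⟩
    · exact natDegree_linear_le
    · simp [coeff_X]
    · simp
    · intro x; simp; ring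
  | succ n ih =>
    set a := q.coeff (n + 1) with ha
    set b : ℚ := a / ((n : ℚ) + 2) with hb
    have hn : ((n : ℚ) + 2) ≠ 0 := by positivity
    set D : ℚ[X] := C b * ((X + 1) ^ (n + 2) - X ^ (n + 2)) with hD
    have hDc : ∀ N, D.coeff N = b * (((n + 2).choose N : ℚ) - if N = n + 2 then 1 else 0) := by
      intro N
      rw [hD, coeff_C_mul, coeff_sub, coeff_X_add_one_pow, coeff_X_pow]
    obtain ⟨p, hp1, hp2, hp3, hp4⟩ := ih (q - D) (by
      rw [natDegree_le_iff_coeff_eq_zero]
      intro N hN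
      rw [coeff_sub, hDc]
      rcases (by omega : N = n + 1 ∨ N = n + 2 ∨ n + 2 < N) with h | h | h
      · subst h
        have e : (n + 2).choose (n + 1) = n + 2 := Nat.choose_succ_self_right (n + 1)
        rw [e, if_neg (by omega), ← ha, hb]
        push_cast
        field_simp
        ring
      · subst h
        rw [Nat.choose_self, if_pos rfl]
        have : q.coeff (n + 2) = 0 := coeff_eq_zero_of_natDegree_lt (by omega)
        rw [this]; simp
      · rw [Nat.choose_eq_zero_of_lt h, if_neg (by omega),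
          coeff_eq_zero_of_natDegree_lt (by omega)]
        simp) v
    refine ⟨p + C b * X ^ (n + 2), ?_, ?_, ?_, ?_⟩
    · refine (natDegree_add_le _ _).trans (max_le (by omega) ?_)
      exact natDegree_C_mul_X_pow_le _ _
    · rw [coeff_add, coeff_C_mul, coeff_X_pow,
        coeff_eq_zero_of_natDegree_lt (by omega : p.natDegree < n + 1 + 1), if_pos rfl, hb]
      push_cast
      have : ((n : ℚ) + 1 + 1) = (n : ℚ) + 2 := by ring
      rw [this]
      field_simp
      ring
    · simp [hp3]
    · intro x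
      have h1 := hp4 x
      rw [eval_sub, hD] at h1
      simp only [eval_mul, eval_C, eval_sub, eval_pow, eval_add, eval_X, eval_one] at h1
      simp only [eval_add, eval_mul, eval_C, eval_pow, eval_X]
      linarith

end

section

theorem lead_alg_T (p2 : ℚ[X]) (s n : ℕ) (h2 : p2.natDegree ≤ s) (hn : s ≤ n) :
    (taylor (-1) p2).coeff n = p2.coeff n := by
  rw [taylor_coeff]
  have h3 : (hasseDeriv n p2).natDegree ≤ 0 := by
    have := natDegree_hasseDeriv_le p2 n
    omega
  rw [eq_C_of_natDegree_le_zero h3, eval_C, hasseDeriv_coeff]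
  simp

theorem lead_alg_T2 (p2 : ℚ[X]) (m : ℕ) (h2 : p2.natDegree ≤ m + 1) :
    (taylor (-1) p2).coeff m = p2.coeff m - (m + 1) * p2.coeff (m + 1) := by
  rw [taylor_coeff]
  have h3 : (hasseDeriv m p2).natDegree < 2 := by
    have := natDegree_hasseDeriv_le p2 m
    omega
  rw [eval_eq_sum_range' h3, Finset.sum_range_succ, Finset.sum_range_succ, Finset.sum_range_zero,
    hasseDeriv_coeff, hasseDeriv_coeff]
  have e1 : (0 + m).choose m = 1 := by simp
  have e2 : (1 + m).choose m = m + 1 := by
    rw [add_comm 1 m]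
    simp
  rw [e1, e2, zero_add, add_comm 1 m]
  push_cast
  ring_nf

theorem lead_alg (k : ℚ) (E s : ℕ) (p1 p2 : ℚ[X]) (h1 : p1.natDegree ≤ s + 1)
    (h2 : p2.natDegree ≤ s) :
    ∃ q : ℚ[X], q.natDegree ≤ s + 1 ∧
      q.coeff (s + 1) = 2 * (E : ℚ) * p1.coeff (s + 1) + ((s : ℚ) + 2 + 2 * E) * p2.coeff s ∧
      ∀ x : ℚ, q.eval x = 2 * (E : ℚ) * p1.eval x + x * (k - x) * p2.eval (x - 1)
        - (x + E + 1) * (k - x - E - 1) * p2.eval x := by
  have hD : ∀ n, s ≤ n → (p2 - taylor (-1) p2).coeff n = 0 := by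
    intro n hn
    rw [coeff_sub, lead_alg_T p2 s n h2 hn, sub_self]
  refine ⟨C (2 * (E : ℚ)) * p1 + (C (2 * ((E : ℚ) + 1)) * (X * p2) +
    C (((E : ℚ) + 1) ^ 2 - k * ((E : ℚ) + 1)) * p2) -
    (C k * (X * (p2 - taylor (-1) p2)) - X * (X * (p2 - taylor (-1) p2))), ?_, ?_, ?_⟩
  · rw [natDegree_le_iff_coeff_eq_zero]
    intro n hn
    obtain ⟨m, rfl⟩ : ∃ m, n = m + 2 := ⟨n - 2, by omega⟩
    have a1 : p1.coeff (m + 2) = 0 := coeff_eq_zero_of_natDegree_lt (by omega)
    have a2 : p2.coeff (m + 1) = 0 := coeff_eq_zero_of_natDegree_lt (by omega)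
    have a3 : p2.coeff (m + 2) = 0 := coeff_eq_zero_of_natDegree_lt (by omega)
    have a4 := hD (m + 1) (by omega)
    have a5 := hD m (by omega)
    simp only [coeff_sub, coeff_add, coeff_C_mul, coeff_X_mul] at a4 a5 ⊢
    linear_combination 2 * (E : ℚ) * a1 + 2 * ((E : ℚ) + 1) * a2 +
      (((E : ℚ) + 1) ^ 2 - k * ((E : ℚ) + 1)) * a3 - k * a4 + a5
  · rcases s with _ | m
    · have a3 : p2.coeff 1 = 0 := coeff_eq_zero_of_natDegree_lt (by omega)
      have a5 := hD 0 (by omega)
      simp only [zero_add, coeff_sub, coeff_add, coeff_C_mul] at a5 ⊢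
      have b1 : (X * p2).coeff 1 = p2.coeff 0 := coeff_X_mul p2 0
      have b2 : (X * (p2 - taylor (-1) p2)).coeff 1 = p2.coeff 0 - (taylor (-1) p2).coeff 0 := by
        rw [← coeff_sub]
        exact coeff_X_mul _ 0
      have b3 : (X * (X * (p2 - taylor (-1) p2))).coeff 1 = 0 := by
        have : (X * (X * (p2 - taylor (-1) p2))).coeff (0 + 1) =
          (X * (p2 - taylor (-1) p2)).coeff 0 := coeff_X_mul _ 0
        rw [zero_add] at this
        rw [this, coeff_X_mul_zero]
      rw [b1, b2, b3]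
      push_cast
      linear_combination (((E : ℚ) + 1) ^ 2 - k * ((E : ℚ) + 1)) * a3 - k * a5
    · have a3 : p2.coeff (m + 2) = 0 := coeff_eq_zero_of_natDegree_lt (by omega)
      have a4 := hD (m + 1) (by omega)
      have a6 := lead_alg_T2 p2 m h2
      simp only [coeff_sub, coeff_add, coeff_C_mul, coeff_X_mul] at a4 ⊢
      push_cast
      linear_combination (((E : ℚ) + 1) ^ 2 - k * ((E : ℚ) + 1)) * a3 - k * a4 - a6
  · intro x
    simp only [eval_sub, eval_add, eval_mul, eval_C, eval_X, taylor_eval]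
    have e : x + -1 = x - 1 := by ring
    rw [e]
    ring

end

section

theorem coeff_poly (k : ℕ) (l r : ℕ → ℚ[X]) (h0 : l 0 = 1) (hk : r k = 1)
    (hl : ∀ i : ℕ, l (i + 1) = (X + C ((k : ℚ) - 1 - 2 * i)) * l i
      + C ((i : ℚ) * ((k : ℚ) - i)) * l (i - 1))
    (hr : ∀ j : ℕ, j < k → r j = (X + C ((k : ℚ) - 1 - 2 * j)) * r (j + 1)
      + C (((j : ℚ) + 1) * ((k : ℚ) - (j + 1))) * r (j + 2))
    (hlm : ∀ i, (l i).natDegree ≤ i ∧ (l i).coeff i = 1)
    (hrm : ∀ j, j ≤ k → (r j).natDegree ≤ k - j ∧ (r j).coeff (k - j) = 1)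
    (antidiff : ∀ (n : ℕ) (q : ℚ[X]) (hq : q.natDegree ≤ n) (v : ℚ),
      ∃ p : ℚ[X], p.natDegree ≤ n + 1 ∧ p.coeff (n + 1) * ((n : ℚ) + 1) = q.coeff n ∧
      p.eval 0 = v ∧ ∀ x : ℚ, p.eval (x + 1) - p.eval x = q.eval x)
    (lead_alg : ∀ (k : ℚ) (E s : ℕ) (p1 p2 : ℚ[X]) (h1 : p1.natDegree ≤ s + 1)
      (h2 : p2.natDegree ≤ s),
      ∃ q : ℚ[X], q.natDegree ≤ s + 1 ∧
        q.coeff (s + 1) = 2 * (E : ℚ) * p1.coeff (s + 1) + ((s : ℚ) + 2 + 2 * E) * p2.coeff s ∧
        ∀ x : ℚ, q.eval x = 2 * (E : ℚ) * p1.eval x + x * (k - x) * p2.eval (x - 1)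
          - (x + E + 1) * (k - x - E - 1) * p2.eval x)
    (s E : ℕ) (hE : 1 ≤ E) (hs : E + s ≤ k) :
    ∃ p : ℚ[X], p.natDegree ≤ s ∧ 0 < p.coeff s ∧
      ∀ i : ℕ, i + E ≤ k → (l i * r (i + E)).coeff (k - E - s) = p.eval (i : ℚ) := by
  -- the difference identity
  have hdiff : ∀ E i : ℕ, i + 1 + E ≤ k →
      l (i + 1) * r (i + 1 + E) - l i * r (i + E) = C (2 * (E : ℚ)) * (l i * r (i + (E + 1)))
        + C ((i : ℚ) * ((k : ℚ) - i)) * (l (i - 1) * r (i + 1 + E))
        - C (((i : ℚ) + E + 1) * ((k : ℚ) - i - E - 1)) * (l i * r (i + (E + 2))) := by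
    intro E i hi
    have h1 := hl i
    have h2 := hr (i + E) (by omega)
    have e1 : i + 1 + E = i + E + 1 := by omega
    have e2 : i + (E + 1) = i + E + 1 := by omega
    have e3 : i + (E + 2) = i + E + 2 := by omega
    rw [h1, h2, e1, e2, e3]
    push_cast
    simp only [map_add, map_sub, map_mul, map_one, map_ofNat, map_natCast]
    ring
  have hco : ∀ E i N : ℕ, i + 1 + E ≤ k →
      (l (i + 1) * r (i + 1 + E)).coeff N - (l i * r (i + E)).coeff N =
        2 * (E : ℚ) * (l i * r (i + (E + 1))).coeff N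
        + (i : ℚ) * ((k : ℚ) - i) * (l (i - 1) * r (i + 1 + E)).coeff N
        - ((i : ℚ) + E + 1) * ((k : ℚ) - i - E - 1) * (l i * r (i + (E + 2))).coeff N := by
    intro E i N hi
    have h1 := congrArg (fun p : ℚ[X] => p.coeff N) (hdiff E i hi)
    simp only [coeff_sub, coeff_add, coeff_C_mul] at h1
    exact h1
  have close : ∀ (n E N : ℕ) (q : ℚ[X]), q.natDegree ≤ n → 0 < q.coeff n →
      (∀ i : ℕ, i + 1 + E ≤ k →
        (l (i + 1) * r (i + 1 + E)).coeff N - (l i * r (i + E)).coeff N = q.eval (i : ℚ)) →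
      ∃ p : ℚ[X], p.natDegree ≤ n + 1 ∧ 0 < p.coeff (n + 1) ∧
        ∀ i : ℕ, i + E ≤ k → (l i * r (i + E)).coeff N = p.eval (i : ℚ) := by
    intro n E N q hq hq0 hd
    obtain ⟨p, hp1, hp2, hp3, hp4⟩ := antidiff n q hq ((l 0 * r (0 + E)).coeff N)
    refine ⟨p, hp1, ?_, ?_⟩
    · have hn : (0 : ℚ) < (n : ℚ) + 1 := by positivity
      rw [← hp2] at hq0
      exact pos_of_mul_pos_left hq0 hn.le
    · intro i
      induction i with
      | zero =>
        intro _
        rw [Nat.cast_zero, hp3]
      | succ i ih =>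
        intro hi
        have h4 := hd i hi
        have h5 := hp4 i
        have h6 := ih (by omega)
        push_cast
        linarith
  have hzero : ∀ (i j E N : ℕ), j ≤ k → i + (k - j) < N → (l i * r j).coeff N = 0 := by
    intro i j E N hj hN
    apply coeff_eq_zero_of_natDegree_lt
    refine lt_of_le_of_lt natDegree_mul_le ?_
    have h1 := (hlm i).1
    have h2 := (hrm j hj).1
    omega
  induction s using Nat.strong_induction_on generalizing E with
  | _ s ih =>
    rcases Nat.lt_or_ge s 1 with hs0 | hs1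
    · -- s = 0
      have hs0' : s = 0 := by omega
      subst hs0'
      refine ⟨1, by simp, by simp, ?_⟩
      intro i hi
      have h1 := coeff_mul_add_eq_of_natDegree_le (hlm i).1 (hrm (i + E) hi).1
      have e : i + (k - (i + E)) = k - E - 0 := by omega
      rw [e, (hlm i).2, (hrm (i + E) hi).2] at h1
      rw [h1]
      simp
    · obtain ⟨p1, hp1d, hp1c, hp1e⟩ := ih (s - 1) (by omega) (E + 1) (by omega) (by omega)
      have hE0 : (0 : ℚ) < E := by exact_mod_cast hE
      have eN : k - (E + 1) - (s - 1) = k - E - s := by omega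
      rw [eN] at hp1e
      rcases Nat.lt_or_ge s 2 with hs2 | hs2
      · -- s = 1
        have hs1' : s = 1 := by omega
        subst hs1'
        refine close 0 E (k - E - 1) (C (2 * (E : ℚ)) * p1) ?_ ?_ ?_
        · exact (natDegree_C_mul_le _ _).trans hp1d
        · rw [coeff_C_mul]
          have : 0 < p1.coeff 0 := hp1c
          positivity
        · intro i hi
          rw [hco E i (k - E - 1) hi, hp1e i (by omega)]
          have t2 : (i : ℚ) * ((k : ℚ) - i) * (l (i - 1) * r (i + 1 + E)).coeff (k - E - 1) = 0 := by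
            rcases Nat.eq_zero_or_pos i with h0 | h0
            · subst h0
              simp
            · rw [hzero (i - 1) (i + 1 + E) E (k - E - 1) (by omega) (by omega), mul_zero]
          have t3 : ((i : ℚ) + E + 1) * ((k : ℚ) - i - E - 1) *
              (l i * r (i + (E + 2))).coeff (k - E - 1) = 0 := by
            rcases Nat.lt_or_ge (i + E + 1) k with h0 | h0
            · rw [hzero i (i + (E + 2)) E (k - E - 1) (by omega) (by omega), mul_zero]
            · have h1 : k = i + E + 1 := by omega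
              have h2 : (k : ℚ) - i - E - 1 = 0 := by
                rw [h1]
                push_cast
                ring
              rw [h2]
              ring
          rw [t2, t3, eval_mul, eval_C]
          ring
      · -- s ≥ 2
        obtain ⟨p2, hp2d, hp2c, hp2e⟩ := ih (s - 2) (by omega) (E + 2) (by omega) (by omega)
        have eN2 : k - (E + 2) - (s - 2) = k - E - s := by omega
        rw [eN2] at hp2e
        obtain ⟨q, hq1, hq2, hq3⟩ := lead_alg k E (s - 2) p1 p2 (by omega) hp2d
        have es : s = (s - 2 + 1) + 1 := by omega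
        have es1 : s - 1 = s - 2 + 1 := by omega
        have hres := close (s - 2 + 1) E (k - E - s) q hq1 ?_ ?_
        · rw [← es] at hres
          exact hres
        · rw [hq2, ← es1]
          have h1 : (0 : ℚ) < ((s - 2 : ℕ) : ℚ) + 2 + 2 * E := by positivity
          have h2 := mul_pos h1 hp2c
          have h3 := mul_pos (mul_pos two_pos hE0) hp1c
          linarith
        · intro i hi
          rw [hco E i (k - E - s) hi, hp1e i (by omega), hq3]
          have t2 : (i : ℚ) * ((k : ℚ) - i) * (l (i - 1) * r (i + 1 + E)).coeff (k - E - s) =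
              (i : ℚ) * ((k : ℚ) - i) * p2.eval ((i : ℚ) - 1) := by
            rcases Nat.eq_zero_or_pos i with h0 | h0
            · subst h0
              simp
            · have h1 := hp2e (i - 1) (by omega)
              have e1 : i - 1 + (E + 2) = i + 1 + E := by omega
              rw [e1] at h1
              rw [h1, Nat.cast_sub h0]
              simp
          have t3 : ((i : ℚ) + E + 1) * ((k : ℚ) - i - E - 1) *
              (l i * r (i + (E + 2))).coeff (k - E - s) =
              ((i : ℚ) + E + 1) * ((k : ℚ) - i - E - 1) * p2.eval (i : ℚ) := by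
            rcases Nat.lt_or_ge (i + E + 1) k with h0 | h0
            · rw [hp2e i (by omega)]
            · have h1 : k = i + E + 1 := by omega
              have h2 : (k : ℚ) - i - E - 1 = 0 := by
                rw [h1]
                push_cast
                ring
              rw [h2]
              ring
          rw [t2, t3]

end

section

theorem span_of_poly_det (n : ℕ) (p : ℕ → ℚ[X])
    (hp : ∀ s < n, (p s).natDegree ≤ s ∧ (p s).coeff s ≠ 0) :
    (Matrix.of (fun i j : Fin n => (p j).eval (((i : ℕ) : ℚ)))).det ≠ 0 := by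
  have h1 := Matrix.eval_matrixOfPolynomials_eq_vandermonde_mul_matrixOfPolynomials
    (fun i : Fin n => ((i : ℕ) : ℚ)) (fun j : Fin n => p j) (fun i => (hp i i.2).1)
  rw [h1, Matrix.det_mul]
  refine mul_ne_zero ?_ ?_
  · rw [Matrix.det_vandermonde_ne_zero_iff]
    intro i j hij
    have : ((i : ℕ) : ℚ) = ((j : ℕ) : ℚ) := hij
    exact Fin.ext (by exact_mod_cast this)
  · rw [Matrix.det_of_isUpperTriangular]
    · rw [Finset.prod_ne_zero_iff]
      intro i _
      exact (hp i i.2).2
    · intro i j hij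
      show (p j).coeff i = 0
      apply Polynomial.coeff_eq_zero_of_natDegree_lt
      have h2 : (j : ℕ) < (i : ℕ) := hij
      exact lt_of_le_of_lt (hp j j.2).1 h2

theorem span_of_poly (n : ℕ) (D : ℕ → ℚ[X]) (p : ℕ → ℚ[X])
    (hp : ∀ s < n, (p s).natDegree ≤ s ∧ (p s).coeff s ≠ 0)
    (hD : ∀ s < n, ∀ i < n, (D i).coeff (n - 1 - s) = (p s).eval (i : ℚ))
    (hdeg : ∀ i < n, ∀ m, n ≤ m → (D i).coeff m = 0)
    (P : ℚ[X]) (hP : ∀ m, n ≤ m → P.coeff m = 0) :
    ∃ a : ℕ → ℚ, ∑ i ∈ range n, C (a i) * D i = P := by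
  have hdet := span_of_poly_det n p hp
  set M : Matrix (Fin n) (Fin n) ℚ := Matrix.of (fun i j : Fin n => (p j).eval (((i : ℕ) : ℚ)))
    with hM
  let b : Fin n → ℚ := fun s => P.coeff (n - 1 - s)
  let a0 : Fin n → ℚ := Matrix.vecMul b M⁻¹
  have ha0 : Matrix.vecMul a0 M = b := by
    show Matrix.vecMul (Matrix.vecMul b M⁻¹) M = b
    rw [Matrix.vecMul_vecMul, Matrix.nonsing_inv_mul M (isUnit_iff_ne_zero.mpr hdet),
      Matrix.vecMul_one]
  refine ⟨fun i => if h : i < n then a0 ⟨i, h⟩ else 0, ?_⟩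
  ext m
  rw [Polynomial.finsetSum_coeff]
  simp only [Polynomial.coeff_C_mul]
  by_cases hm : n ≤ m
  · rw [hP m hm]
    apply Finset.sum_eq_zero
    intro i hi
    rw [hdeg i (Finset.mem_range.mp hi) m hm, mul_zero]
  · push Not at hm
    have hs : n - 1 - m < n := by omega
    have hms : n - 1 - (n - 1 - m) = m := by omega
    have h1 : Matrix.vecMul a0 M ⟨n - 1 - m, hs⟩ = P.coeff m := by
      rw [ha0]
      show P.coeff (n - 1 - (n - 1 - m)) = P.coeff m
      rw [hms]
    rw [← h1]
    show _ = ∑ i : Fin n, a0 i * M i ⟨n - 1 - m, hs⟩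
    rw [Finset.sum_range]
    refine Finset.sum_congr rfl fun i _ => ?_
    rw [dif_pos i.2]
    have h2 := hD (n - 1 - m) hs i i.2
    rw [hms] at h2
    rw [h2]
    rfl

end

section

theorem Q_iff (F : ℚ[X][X]) (h : ℚ[X]) :
    Q F h ↔ ∀ m, (F.coeff m).natDegree ≤ m ∧ (F.coeff m).coeff m = h.coeff m := by
  constructor
  · intro hQ m
    refine ⟨?_, ?_⟩
    · rw [Polynomial.natDegree_le_iff_coeff_eq_zero]
      intro l hl
      rw [hQ m l hl.le, if_neg (by omega)]
    · rw [hQ m m le_rfl, if_pos rfl]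
  · intro hQ m l hml
    by_cases h1 : l = m
    · rw [if_pos h1, h1]
      exact (hQ m).2
    · rw [if_neg h1]
      apply Polynomial.coeff_eq_zero_of_natDegree_lt
      have := (hQ m).1
      omega

theorem Q_one : Q 1 1 := by
  rw [Q_iff]
  intro m
  rw [Polynomial.coeff_one, Polynomial.coeff_one]
  by_cases h : m = 0
  · subst h
    simp
  · simp [h, Ne.symm h]

theorem Q_zero : Q 0 0 := by
  rw [Q_iff]
  intro m
  simp

theorem Q_add {F G : ℚ[X][X]} {h g : ℚ[X]} (hF : Q F h) (hG : Q G g) : Q (F + G) (h + g) := by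
  rw [Q_iff] at *
  intro m
  rw [Polynomial.coeff_add, Polynomial.coeff_add, Polynomial.coeff_add, (hF m).2, (hG m).2]
  exact ⟨Polynomial.natDegree_add_le_of_degree_le (hF m).1 (hG m).1, rfl⟩

theorem Q_mul {F G : ℚ[X][X]} {h g : ℚ[X]} (hF : Q F h) (hG : Q G g) : Q (F * G) (h * g) := by
  rw [Q_iff] at *
  intro m
  rw [Polynomial.coeff_mul]
  refine ⟨?_, ?_⟩
  · apply Polynomial.natDegree_sum_le_of_forall_le
    intro x hx
    have h1 : x.1 + x.2 = m := Finset.HasAntidiagonal.mem_antidiagonal.mp hx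
    rw [← h1]
    exact Polynomial.natDegree_mul_le_of_le (hF x.1).1 (hG x.2).1
  · rw [Polynomial.finsetSum_coeff, Polynomial.coeff_mul]
    apply Finset.sum_congr rfl
    intro x hx
    have h1 : x.1 + x.2 = m := Finset.HasAntidiagonal.mem_antidiagonal.mp hx
    rw [← h1, Polynomial.coeff_mul_add_eq_of_natDegree_le (hF x.1).1 (hG x.2).1, (hF x.1).2, (hG x.2).2]

theorem Q_sum {ι : Type} (s : Finset ι) (F : ι → ℚ[X][X]) (h : ι → ℚ[X])
    (hs : ∀ i ∈ s, Q (F i) (h i)) : Q (∑ i ∈ s, F i) (∑ i ∈ s, h i) := by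
  classical
  induction s using Finset.induction_on with
  | empty => simpa using Q_zero
  | insert a s ha ih =>
    rw [Finset.sum_insert ha, Finset.sum_insert ha]
    exact Q_add (hs a (Finset.mem_insert_self _ _))
      (ih fun i hi => hs i (Finset.mem_insert_of_mem hi))

theorem Q_R (k : ℕ) (w : ℕ → ℕ → ℚ[X][X]) (v : ℕ → ℕ → ℚ[X])
    (h : ∀ i j, i ≤ j → j < k → Q (w i j) (v i j)) (i : ℕ) : Q (R k w i) (R k v i) := by
  have key : ∀ n i, k - i = n → Q (R k w i) (R k v i) := by
    intro n
    induction n using Nat.strong_induction_on with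
    | _ n ih =>
      intro i hi
      by_cases hki : k ≤ i
      · rw [R_of_ge w hki, R_of_ge v hki]
        exact Q_one
      · have hik : i < k := by omega
        rw [R_of_lt w hik, R_of_lt v hik]
        apply Q_sum
        intro j hj
        rw [Finset.mem_Ico] at hj
        exact Q_mul (h i j hj.1 hj.2) (ih (k - (j + 1)) (by omega) (j + 1) rfl)
  exact key (k - i) i rfl

end

section

theorem R_w0_aux (k : ℕ) (f : ℚ[X]) : ∀ d i : ℕ, 1 ≤ i → i + d = k →
    R k (w0 k f) i = X ^ d := by
  intro d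
  induction d with
  | zero =>
    intro i hi hik
    rw [R_of_ge _ (by omega), pow_zero]
  | succ d ih =>
    intro i hi hik
    rw [R_of_lt _ (by omega), Finset.sum_eq_single_of_mem i (Finset.mem_Ico.2 ⟨le_refl _, by omega⟩)]
    · rw [ih (i + 1) (by omega) (by omega)]
      have h1 : w0 k f i i = X := by
        unfold w0 c0
        rw [if_pos rfl, if_neg (by omega)]
        simp
      rw [h1, pow_succ]
      ring
    · intro j hj hne
      have h1 : w0 k f i j = 0 := by
        unfold w0 nu
        rw [if_neg hne, if_neg (by omega)]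
        simp
      rw [h1, zero_mul]

theorem R_w0 (k : ℕ) (hk : 1 ≤ k) (f : ℚ[X]) (hf : f.Monic) (hd : f.natDegree = k) :
    R k (w0 k f) 0 = f := by
  rw [R_of_lt _ (by omega)]
  have h1 : ∀ j ∈ Finset.Ico 0 k, w0 k f 0 j * R k (w0 k f) (j + 1) =
      (if j = 0 then X ^ k else 0) + C (f.coeff (k - 1 - j)) * X ^ (k - 1 - j) := by
    intro j hj
    have hjk : j < k := (Finset.mem_Ico.1 hj).2
    rw [R_w0_aux k f (k - 1 - j) (j + 1) (by omega) (by omega)]
    by_cases h0 : j = 0
    · subst h0
      unfold w0 c0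
      rw [if_pos rfl, if_pos rfl, if_pos rfl]
      have h2 : X ^ k = (X : ℚ[X]) * X ^ (k - 1 - 0) := by
        rw [← pow_succ']
        congr 1
        omega
      rw [h2, Nat.sub_zero]
      ring
    · unfold w0 nu
      rw [if_neg h0, if_neg h0, if_pos rfl]
      have h3 : ((-1 : ℚ[X])) ^ (j - 0 - 1) * C ((-1) ^ (j - 1) * f.coeff (k - 1 - j)) =
          C (f.coeff (k - 1 - j)) := by
        rw [Nat.sub_zero, C_mul, C_pow, C_neg, C_1, ← mul_assoc, ← mul_pow]
        simp
      rw [h3, zero_add]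
  rw [Finset.sum_congr rfl h1, Finset.sum_add_distrib, Finset.sum_ite_eq',
    if_pos (Finset.mem_Ico.2 ⟨le_refl _, by omega⟩), Nat.Ico_zero_eq_range,
    Finset.sum_range_reflect (fun i => C (f.coeff i) * X ^ i) k]
  conv_rhs => rw [f.as_sum_range_C_mul_X_pow, hd, Finset.sum_range_succ]
  have h4 : f.coeff k = 1 := by rw [← hd]; exact hf
  rw [h4, C_1, one_mul, add_comm]

end

section

theorem W_facts (k : ℕ) (hk : 1 ≤ k) (f : ℚ[X]) (y : ℕ → ℕ → ℚ) (i j : ℕ) (hij : i ≤ j)
    (hj : j < k) :
    (W k f y i j).natDegree ≤ j - i + 1 ∧ (W k f y i j).coeff (j - i + 1) = om k i j ∧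
      Q (W k f y i j) (w0 k f i j) := by
  by_cases h : j = i
  · subst h
    have hW : W k f y j j = C (X + C ((k : ℚ) - 1 - 2 * j)) * X + C (C (c0 k f j)) := by
      unfold W; rw [if_pos rfl]
    have hw0 : w0 k f j j = X + C (c0 k f j) := by
      unfold w0; rw [if_pos rfl]
    have hom : om k j j = X + C ((k : ℚ) - 1 - 2 * j) := by
      unfold om; rw [if_pos rfl]
    have hc : ∀ m, (W k f y j j).coeff m = if m = 0 then C (c0 k f j) else if m = 1 then
        X + C ((k : ℚ) - 1 - 2 * j) else 0 := by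
      intro m
      rw [hW, coeff_add, coeff_C_mul, coeff_X, coeff_C]
      rcases m with _ | _ | m
      · simp
      · simp
      · simp
    rw [Nat.sub_self, zero_add]
    refine ⟨?_, ?_, ?_⟩
    · rw [natDegree_le_iff_coeff_eq_zero]
      intro m hm
      rw [hc, if_neg (by omega), if_neg (by omega)]
    · rw [hc, hom]; simp
    · intro m l hml
      rw [hc, hw0]
      rcases m with _ | _ | m
      · simp [coeff_C]
      · have hl : l ≠ 0 := by omega
        simp only [zero_add, one_ne_zero, if_false, if_true, coeff_add, coeff_X, coeff_C, hl]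
        by_cases h1 : l = 1
        · subst h1; simp
        · have h2 : ¬ (1 = l) := fun h => h1 h.symm
          simp [h1, h2]
      · have : ¬ (1 = m + 1 + 1) := by omega
        simp [coeff_X, coeff_C]
  · obtain ⟨s, hs⟩ : ∃ s : ℚ, s = (-1) ^ (j - i - 1) := ⟨_, rfl⟩
    have hsC : ((-1 : ℚ[X]) ^ (j - i - 1)) = C s := by
      rw [hs]; simp
    have hsCC : ((-1 : ℚ[X][X]) ^ (j - i - 1)) = C (C s) := by
      rw [hs]; simp
    have hW : W k f y i j = C (C (s * beta k i j)) * X ^ 2 + C (C (s * y i j)) * X +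
        C (C (s * nu k f i j)) := by
      unfold W; rw [if_neg h, hsCC]
      simp only [C_mul]
      ring
    have hw0 : w0 k f i j = C (s * nu k f i j) := by
      unfold w0; rw [if_neg h, hsC, C_mul]
    have hc : ∀ m, (W k f y i j).coeff m = if m = 0 then C (s * nu k f i j) else if m = 1 then
        C (s * y i j) else if m = 2 then C (s * beta k i j) else 0 := by
      intro m
      rw [hW, coeff_add, coeff_add, coeff_C_mul, coeff_C_mul, coeff_X_pow, coeff_X, coeff_C]
      rcases m with _ | _ | _ | m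
      · simp
      · simp
      · simp
      · simp
    refine ⟨?_, ?_, ?_⟩
    · rw [natDegree_le_iff_coeff_eq_zero]
      intro m hm
      rw [hc, if_neg (by omega), if_neg (by omega), if_neg (by omega)]
    · rw [hc, if_neg (by omega), if_neg (by omega)]
      by_cases h1 : j = i + 1
      · subst h1
        have hs1 : s = 1 := by rw [hs]; simp
        rw [if_pos (by omega), hs1, one_mul]
        unfold om beta
        rw [if_neg (by omega), if_pos rfl]
        congr 1
        push_cast
        ring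
      · rw [if_neg (by omega)]
        unfold om
        rw [if_neg h, if_neg h1]
    · intro m l hml
      rw [hc, hw0]
      rcases m with _ | _ | _ | m
      · simp [coeff_C]
      · have hl : l ≠ 0 := by omega
        simp [coeff_C, hl]
      · have hl : l ≠ 0 := by omega
        simp [coeff_C, hl]
      · simp [coeff_C]

end

section

theorem step (k : ℕ) (f : ℚ[X]) (y : ℕ → ℕ → ℚ) (e : ℕ) (he : 1 ≤ e) (hek : e < k)
    (hprev : ∀ e' < e, (R k (W k f y) 0).coeff (k - e') = C (f.coeff (k - e')) * X ^ (k - e'))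
    (hspan : ∀ P : ℚ[X], (∀ m, k - e ≤ m → P.coeff m = 0) →
      ∃ a : ℕ → ℚ, ∑ i ∈ range (k - e), C (a i) * (L (om k) i * R k (om k) (i + e + 1)) = P)
    (hsub : ∀ w w' : ℕ → ℕ → ℚ[X][X], R k w' 0 - R k w 0 =
      ∑ i ∈ range k, L w i * ∑ j ∈ Ico i k, (w' i j - w i j) * R k w' (j + 1))
    (hR : ∀ (y : ℕ → ℕ → ℚ) (i : ℕ), i ≤ k → (R k (W k f y) i).natDegree ≤ k - i ∧
      (R k (W k f y) i).coeff (k - i) = R k (om k) i)
    (hL : ∀ (y : ℕ → ℕ → ℚ) (i : ℕ), i ≤ k → (L (W k f y) i).natDegree ≤ i ∧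
      (L (W k f y) i).coeff i = L (om k) i)
    (hQ : ∀ y : ℕ → ℕ → ℚ, Q (R k (W k f y) 0) f) :
    ∃ y' : ℕ → ℕ → ℚ, ∀ e' ≤ e,
      (R k (W k f y') 0).coeff (k - e') = C (f.coeff (k - e')) * X ^ (k - e') := by
  have hP0 : ∀ m, k - e ≤ m → (C ((-1 : ℚ) ^ (e - 1)) *
      (C (f.coeff (k - e)) * X ^ (k - e) - (R k (W k f y) 0).coeff (k - e))).coeff m = 0 := by
    intro m hm
    rw [coeff_C_mul, coeff_sub, coeff_C_mul, coeff_X_pow, hQ y (k - e) m hm]
    by_cases h : m = k - e
    · simp [h]
    · simp [h]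
  obtain ⟨a, ha⟩ := hspan _ hP0
  set y' : ℕ → ℕ → ℚ := fun i j => y i j + if j = i + e ∧ i < k - e then a i else 0 with hy'
  -- difference of the weights
  have hdiff : ∀ i j, i < k → W k f y' i j - W k f y i j =
      if j = i + e ∧ i < k - e then C ((-1) ^ (e - 1) * C (a i)) * X else 0 := by
    intro i j hik
    by_cases hj : j = i + e ∧ i < k - e
    · rw [if_pos hj]
      have h1 : j ≠ i := by omega
      have h2 : j - i - 1 = e - 1 := by omega
      have h3 : y' i j = y i j + a i := by simp only [hy', if_pos hj]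
      unfold W
      rw [if_neg h1, if_neg h1, h2, h3]
      simp only [map_mul, map_pow, map_neg, map_one, map_add]
      ring
    · rw [if_neg hj]
      have h3 : y' i j = y i j := by simp only [hy', if_neg hj, add_zero]
      unfold W
      rw [h3, sub_self]
  have hRR : R k (W k f y') 0 - R k (W k f y) 0 = ∑ i ∈ range (k - e),
      C ((-1) ^ (e - 1) * C (a i)) * (L (W k f y) i * R k (W k f y') (i + e + 1)) * X := by
    rw [hsub (W k f y) (W k f y')]
    have hsubset : range (k - e) ⊆ range k := by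
      intro i hi
      rw [mem_range] at hi ⊢
      omega
    rw [← Finset.sum_subset hsubset]
    · refine Finset.sum_congr rfl fun i hi => ?_
      rw [mem_range] at hi
      rw [Finset.sum_eq_single (i + e)]
      · rw [hdiff i (i + e) (by omega), if_pos ⟨rfl, hi⟩]
        ring
      · intro j _ hj
        rw [hdiff i j (by omega), if_neg (fun h => hj h.1), zero_mul]
      · intro h
        exfalso
        apply h
        rw [mem_Ico]
        omega
    · intro i hi hni
      rw [mem_range] at hi hni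
      rw [Finset.sum_eq_zero, mul_zero]
      intro j _
      rw [hdiff i j hi, if_neg (fun h => hni h.2), zero_mul]
  have hco : ∀ m, (R k (W k f y') 0).coeff m = (R k (W k f y) 0).coeff m +
      ∑ i ∈ range (k - e), (C ((-1) ^ (e - 1) * C (a i)) *
        (L (W k f y) i * R k (W k f y') (i + e + 1)) * X).coeff m := by
    intro m
    rw [← finsetSum_coeff, ← hRR, coeff_sub]
    ring
  refine ⟨y', fun e' he' => ?_⟩
  rcases Nat.lt_or_ge e' e with hlt | hge
  · rw [hco, hprev e' hlt, Finset.sum_eq_zero, add_zero]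
    intro i hi
    rw [mem_range] at hi
    obtain ⟨n, hn⟩ : ∃ n, k - e' = n + 1 := ⟨k - e' - 1, by omega⟩
    rw [hn, coeff_mul_X, coeff_C_mul]
    have h1 := (hL y i (by omega)).1
    have h2 := (hR y' (i + e + 1) (by omega)).1
    rw [coeff_eq_zero_of_natDegree_lt, mul_zero]
    refine lt_of_le_of_lt (natDegree_mul_le) ?_
    omega
  · have hee : e' = e := le_antisymm he' hge
    subst hee
    rw [hco]
    have hterm : ∀ i ∈ range (k - e'), (C ((-1) ^ (e' - 1) * C (a i)) *
        (L (W k f y) i * R k (W k f y') (i + e' + 1)) * X).coeff (k - e') =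
        (-1) ^ (e' - 1) * (C (a i) * (L (om k) i * R k (om k) (i + e' + 1))) := by
      intro i hi
      rw [mem_range] at hi
      obtain ⟨n, hn⟩ : ∃ n, k - e' = n + 1 := ⟨k - e' - 1, by omega⟩
      rw [hn, coeff_mul_X, coeff_C_mul]
      have h1 := hL y i (by omega)
      have h2 := hR y' (i + e' + 1) (by omega)
      have h3 : n = i + (k - (i + e' + 1)) := by omega
      rw [h3, coeff_mul_add_eq_of_natDegree_le h1.1 h2.1, h1.2, h2.2]
      ring
    rw [Finset.sum_congr rfl hterm, ← Finset.mul_sum, ha]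
    have hsq : ((-1 : ℚ[X]) ^ (e' - 1)) * C ((-1 : ℚ) ^ (e' - 1)) = 1 := by
      rw [map_pow, map_neg, map_one, ← mul_pow]
      simp
    rw [← mul_assoc, hsq]
    ring

end

section

theorem eval_family (k : ℕ) (hk : 1 ≤ k) (f : ℚ[X]) (hd : f.natDegree = k)
    (y : ℕ → ℕ → ℚ)
    (h : ∀ m, (R k (W k f y) 0).coeff m = C (f.coeff m) * X ^ m)
    (hmap : ∀ (φ : ℚ[X][X] →+* ℚ[X]) (w : ℕ → ℕ → ℚ[X][X]) (i : ℕ),
      φ (R k w i) = R k (fun a b => φ (w a b)) i)
    (t : ℚ) (ht : t ≠ 0) :
    R k (fun i j => if j = i then X + C (((k : ℚ) - 1 - 2 * i) * t + c0 k f i)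
      else (-1) ^ (j - i - 1) * C (beta k i j * t ^ 2 + y i j * t + nu k f i j)) 0 = f := by
  have hCt : (C (1 / t) : ℚ[X]) * C t = 1 := by
    rw [← C_mul, one_div, inv_mul_cancel₀ ht, C_1]
  let φ : ℚ[X][X] →+* ℚ[X] := Polynomial.eval₂RingHom (Polynomial.compRingHom (C (1/t) * X)) (C t)
  have hφC : ∀ p : ℚ[X], φ (C p) = p.comp (C (1/t) * X) := by
    intro p
    simp [φ]
  have hφX : φ X = C t := by simp [φ]
  have h1 : (fun i j => if j = i then X + C (((k : ℚ) - 1 - 2 * i) * t + c0 k f i)
      else (-1) ^ (j - i - 1) * C (beta k i j * t ^ 2 + y i j * t + nu k f i j)) =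
      fun a b => φ (W k f y a b) := by
    funext i j
    unfold W
    by_cases hij : j = i
    · rw [if_pos hij, if_pos hij, φ.map_add, φ.map_mul, hφC, hφC, hφX, add_comp, X_comp, C_comp, C_comp,
        C_add, C_mul]
      linear_combination (-X) * hCt
    · rw [if_neg hij, if_neg hij, φ.map_mul, φ.map_add, φ.map_add, φ.map_mul, φ.map_mul, φ.map_pow, φ.map_pow, φ.map_neg,
        φ.map_one, hφC, hφC, hφC, hφX, C_comp, C_comp, C_comp, C_add, C_add, C_mul, C_mul, C_pow]
  rw [h1, ← hmap φ]
  have h2 : R k (W k f y) 0 = ∑ m ∈ Finset.range (k + 1), C (C (f.coeff m) * X ^ m) * X ^ m := by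
    apply Polynomial.ext
    intro n
    rw [h n, finsetSum_coeff]
    simp only [coeff_C_mul, coeff_X_pow]
    rw [Finset.sum_eq_single n]
    · simp
    · intro b _ hb
      rw [if_neg (fun hh => hb hh.symm), mul_zero]
    · intro hn
      have : f.coeff n = 0 := by
        apply coeff_eq_zero_of_natDegree_lt
        rw [hd]
        simp only [Finset.mem_range, not_lt] at hn
        omega
      rw [this]
      simp
  rw [h2, map_sum]
  conv_rhs => rw [f.as_sum_range' (k + 1) (by omega)]
  apply Finset.sum_congr rfl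
  intro m _
  rw [map_mul, map_pow, hφC, hφX, mul_comp, C_comp, pow_comp, X_comp, ← C_mul_X_pow_eq_monomial,
    mul_pow, mul_assoc]
  congr 1
  have h3 : (C (1 / t) : ℚ[X]) ^ m * C t ^ m = 1 := by rw [← mul_pow, hCt, one_pow]
  linear_combination (X ^ m) * h3

end

section

theorem ev_quad (M : ℕ) (hM : 0 < M) (a b c : ℚ) (ha : 0 < a) :
    ∀ᶠ n : ℕ in Filter.atTop, 0 ≤ a * ((M * n : ℕ) : ℚ) ^ 2 + b * ((M * n : ℕ) : ℚ) + c := by
  obtain ⟨N, hN⟩ := exists_nat_ge ((|b| + |c|) / a + 1)
  filter_upwards [Filter.eventually_ge_atTop N] with n hn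
  have h1 : (|b| + |c|) / a + 1 ≤ ((M * n : ℕ) : ℚ) := by
    refine hN.trans ?_
    have : N ≤ M * n := hn.trans (Nat.le_mul_of_pos_left n hM)
    exact_mod_cast this
  generalize ((M * n : ℕ) : ℚ) = t at h1
  have h2 : |b| + |c| + a ≤ a * t := by
    have h3 : a * ((|b| + |c|) / a + 1) ≤ a * t := by gcongr
    have e : a * ((|b| + |c|) / a + 1) = |b| + |c| + a := by field_simp
    linarith
  have hb := abs_nonneg b
  have hc := abs_nonneg c
  have ht : 1 ≤ t := by
    have : 0 ≤ (|b| + |c|) / a := by positivity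
    linarith
  have h3 : (|b| + |c|) * t ≤ a * t * t :=
    mul_le_mul_of_nonneg_right (by linarith) (by linarith)
  have h4 : -|b| * t ≤ b * t := mul_le_mul_of_nonneg_right (neg_abs_le b) (by linarith)
  have h5 : -|c| ≤ c := neg_abs_le c
  have h6 : |c| * 1 ≤ |c| * t := mul_le_mul_of_nonneg_left ht hc
  nlinarith

theorem int_val (k : ℕ) (hk : 1 ≤ k) (f : ℤ[X]) (y : ℕ → ℕ → ℚ) (D : ℕ) (i j : ℕ)
    (hD : (y i j).den ∣ D) (n : ℕ) :
    ∃ z : ℤ, (z : ℚ) = beta k i j * ((k * D * n : ℕ) : ℚ) ^ 2 + y i j * ((k * D * n : ℕ) : ℚ)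
      + nu k (f.map (Int.castRingHom ℚ)) i j := by
  obtain ⟨E, rfl⟩ := hD
  have hnu : ∃ z : ℤ, (z : ℚ) = nu k (f.map (Int.castRingHom ℚ)) i j := by
    unfold nu
    split_ifs
    · refine ⟨(-1) ^ (j - 1) * f.coeff (k - 1 - j), ?_⟩
      push_cast
      rw [Polynomial.coeff_map]
      rfl
    · exact ⟨0, by simp⟩
  obtain ⟨z, hz⟩ := hnu
  refine ⟨((i:ℤ)+1) * ((k:ℤ) - i - 1) * ((k * ((y i j).den * E) * n : ℕ) : ℤ)^2
    - ((j:ℤ) - i - 1) * k * (((y i j).den * E * n : ℕ) : ℤ)^2 + (y i j).num * k * E * n + z, ?_⟩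
  rw [← hz]
  unfold beta
  have hk' : (k : ℚ) ≠ 0 := by positivity
  have hy : y i j * (y i j).den = (y i j).num := Rat.mul_den_eq_num _
  have e1 : ((j:ℚ) - i - 1) / k * k = (j:ℚ) - i - 1 := div_mul_cancel₀ _ hk'
  push_cast
  linear_combination ((k:ℚ) * (((y i j).den : ℚ) * E * n) ^ 2) * e1 - ((k:ℚ) * E * n) * hy

theorem int_data (k : ℕ) (hk : 1 ≤ k) (f : ℤ[X]) (y : ℕ → ℕ → ℚ) :
    ∃ (t : ℚ) (c : ℕ → ℤ) (d : ℕ → ℕ → ℤ), t ≠ 0 ∧
      (∀ i < k, (c i : ℚ) = ((k : ℚ) - 1 - 2 * i) * t + c0 k (f.map (Int.castRingHom ℚ)) i) ∧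
      (∀ i j, i < j → j < k → (d i j : ℚ) =
        beta k i j * t ^ 2 + y i j * t + nu k (f.map (Int.castRingHom ℚ)) i j) ∧
      (∀ i j, i < j → j + 1 < k → d i (j + 1) ≤ d i j) ∧
      (∀ i j, i < j → j < k → 0 ≤ d i j) ∧
      (∀ j, j + 1 < k → ∑ p ∈ range j, d p j - c j ≤
        ∑ p ∈ range (j + 1), d p (j + 1) - c (j + 1)) := by
  classical
  set D : ℕ := ∏ i ∈ range k, ∏ j ∈ range k, (y i j).den with hD
  have hDdvd : ∀ i j, i < k → j < k → (y i j).den ∣ D := by
    intro i j hi hj
    exact (Finset.dvd_prod_of_mem (fun j => (y i j).den) (mem_range.2 hj)).trans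
      (Finset.dvd_prod_of_mem (fun i => ∏ j ∈ range k, (y i j).den) (mem_range.2 hi))
  have hD0 : 0 < D := Finset.prod_pos fun i _ => Finset.prod_pos fun j _ => (y i j).den_pos
  have hM : 0 < k * D := Nat.mul_pos (by omega) hD0
  have hk' : (0:ℚ) < k := by positivity
  set F := f.map (Int.castRingHom ℚ) with hF
  -- the sign of beta
  have hprod : ∀ i : ℕ, i + 1 < k → (1:ℚ) ≤ ((i:ℚ) + 1) * ((k:ℚ) - i - 1) := by
    intro i hi
    have h1 : (i:ℚ) + 1 + 1 ≤ k := by exact_mod_cast hi
    have h2 : (0:ℚ) ≤ i := Nat.cast_nonneg i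
    nlinarith
  have E1 : ∀ᶠ n : ℕ in Filter.atTop, ∀ i ∈ range k, ∀ j ∈ range k, i < j → j + 1 < k →
      0 ≤ (beta k i j - beta k i (j+1)) * ((k * D * n : ℕ) : ℚ) ^ 2
        + (y i j - y i (j+1)) * ((k * D * n : ℕ) : ℚ) + (nu k F i j - nu k F i (j+1)) := by
    refine (Filter.eventually_all_finset _).2 fun i _ => (Filter.eventually_all_finset _).2 fun j _ => ?_
    have hb : 0 < beta k i j - beta k i (j+1) := by
      have : beta k i j - beta k i (j+1) = 1 / k := by
        unfold beta
        push_cast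
        ring
      rw [this]
      positivity
    exact (ev_quad (k * D) hM _ _ _ hb).mono fun n h _ _ => h
  have E2 : ∀ᶠ n : ℕ in Filter.atTop, ∀ i ∈ range k, ∀ j ∈ range k, i < j →
      0 ≤ beta k i j * ((k * D * n : ℕ) : ℚ) ^ 2
        + y i j * ((k * D * n : ℕ) : ℚ) + nu k F i j := by
    refine (Filter.eventually_all_finset _).2 fun i _ => (Filter.eventually_all_finset _).2 fun j hj => ?_
    by_cases hij : i < j
    · have hj' := mem_range.1 hj
      have hb : 0 < beta k i j := by
        have h1 := hprod i (by omega)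
        unfold beta
        have h2 : ((j:ℚ) - i - 1) / k < 1 := by
          rw [div_lt_one hk']
          have : (j:ℚ) < k := by exact_mod_cast hj'
          have h2 : (0:ℚ) ≤ i := Nat.cast_nonneg i
          linarith
        linarith
      exact (ev_quad (k * D) hM _ _ _ hb).mono fun n h _ => h
    · exact Filter.Eventually.of_forall fun n h => absurd h hij
  have E3 : ∀ᶠ n : ℕ in Filter.atTop, ∀ j ∈ range k, j + 1 < k →
      0 ≤ (∑ p ∈ range (j+1), beta k p (j+1) - ∑ p ∈ range j, beta k p j) * ((k * D * n : ℕ) : ℚ) ^ 2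
        + (∑ p ∈ range (j+1), y p (j+1) - ∑ p ∈ range j, y p j + 2) * ((k * D * n : ℕ) : ℚ)
        + (∑ p ∈ range (j+1), nu k F p (j+1) - ∑ p ∈ range j, nu k F p j
          - c0 k F (j+1) + c0 k F j) := by
    refine (Filter.eventually_all_finset _).2 fun j _ => ?_
    by_cases hj : j + 1 < k
    · have hb : 0 < ∑ p ∈ range (j+1), beta k p (j+1) - ∑ p ∈ range j, beta k p j := by
        rw [Finset.sum_range_succ]
        have h1 : ∑ p ∈ range j, beta k p (j+1) = ∑ p ∈ range j, beta k p j - j * (1 / k) := by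
          have : ∀ p ∈ range j, beta k p (j+1) = beta k p j - 1 / k := by
            intro p _
            unfold beta
            push_cast
            ring
          rw [Finset.sum_congr rfl this, Finset.sum_sub_distrib, Finset.sum_const, card_range,
            nsmul_eq_mul]
        rw [h1]
        have h2 : beta k j (j+1) = ((j:ℚ) + 1) * ((k:ℚ) - j - 1) := by
          unfold beta
          push_cast
          ring
        rw [h2]
        have h3 := hprod j hj
        have h4 : (j:ℚ) * (1 / k) < 1 := by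
          rw [mul_one_div, div_lt_one hk']
          have : j < k := by omega
          exact_mod_cast this
        linarith
      exact (ev_quad (k * D) hM _ _ _ hb).mono fun n h _ => h
    · exact Filter.Eventually.of_forall fun n h => absurd h hj
  obtain ⟨n, h1, h2, h3, hn⟩ := (E1.and (E2.and (E3.and (Filter.eventually_ge_atTop 1)))).exists
  have hex : ∀ i j, ∃ z : ℤ, i < k → j < k → (z : ℚ) = beta k i j * ((k * D * n : ℕ) : ℚ) ^ 2
      + y i j * ((k * D * n : ℕ) : ℚ) + nu k F i j := by
    intro i j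
    by_cases hij : i < k ∧ j < k
    · obtain ⟨z, hz⟩ := int_val k hk f y D i j (hDdvd i j hij.1 hij.2) n
      exact ⟨z, fun _ _ => hz⟩
    · exact ⟨0, fun a b => absurd ⟨a, b⟩ hij⟩
  choose d hd using hex
  have hc : ∀ i : ℕ, (((((k:ℤ) - 1 - 2 * i) * ((k * D * n : ℕ) : ℤ) + if i = 0 then f.coeff (k - 1) else 0) : ℤ) : ℚ) =
      ((k : ℚ) - 1 - 2 * i) * ((k * D * n : ℕ) : ℚ) + c0 k F i := by
    intro i
    unfold c0
    rw [hF, Polynomial.coeff_map]
    push_cast
    split_ifs <;> simp
  refine ⟨((k * D * n : ℕ) : ℚ), fun i => ((k:ℤ) - 1 - 2 * i) * ((k * D * n : ℕ) : ℤ) + if i = 0 then f.coeff (k - 1) else 0, d, ?_, fun i _ => hc i, ?_, ?_, ?_, ?_⟩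
  · have : 0 < k * D * n := Nat.mul_pos hM hn
    exact_mod_cast this.ne'
  · intro i j hij hj
    exact hd i j (by omega) hj
  · intro i j hij hj
    have e1 := hd i j (by omega) (by omega)
    have e2 := hd i (j+1) (by omega) (by omega)
    have e3 := h1 i (mem_range.2 (by omega)) j (mem_range.2 (by omega)) hij hj
    have : (d i (j+1) : ℚ) ≤ d i j := by
      rw [e1, e2]
      linarith
    exact_mod_cast this
  · intro i j hij hj
    have e1 := hd i j (by omega) (by omega)
    have e3 := h2 i (mem_range.2 (by omega)) j (mem_range.2 (by omega)) hij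
    have : (0 : ℚ) ≤ d i j := by
      rw [e1]
      exact e3
    exact_mod_cast this
  · intro j hj
    have e3 := h3 j (mem_range.2 (by omega)) hj
    have c1 := hc j
    have c2 := hc (j+1)
    have s1 : ((∑ p ∈ range j, d p j : ℤ) : ℚ) = (∑ p ∈ range j, beta k p j) * ((k * D * n : ℕ) : ℚ) ^ 2
        + (∑ p ∈ range j, y p j) * ((k * D * n : ℕ) : ℚ) + ∑ p ∈ range j, nu k F p j := by
      rw [Int.cast_sum, Finset.sum_mul, Finset.sum_mul, ← Finset.sum_add_distrib,
        ← Finset.sum_add_distrib]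
      refine Finset.sum_congr rfl fun p hp => ?_
      have := mem_range.1 hp
      exact hd p j (by omega) (by omega)
    have s2 : ((∑ p ∈ range (j+1), d p (j+1) : ℤ) : ℚ) = (∑ p ∈ range (j+1), beta k p (j+1)) * ((k * D * n : ℕ) : ℚ) ^ 2
        + (∑ p ∈ range (j+1), y p (j+1)) * ((k * D * n : ℕ) : ℚ) + ∑ p ∈ range (j+1), nu k F p (j+1) := by
      rw [Int.cast_sum, Finset.sum_mul, Finset.sum_mul, ← Finset.sum_add_distrib,
        ← Finset.sum_add_distrib]
      refine Finset.sum_congr rfl fun p hp => ?_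
      have := mem_range.1 hp
      exact hd p (j+1) (by omega) (by omega)
    beta_reduce
    rw [← Int.cast_le (R := ℚ), Int.cast_sub, Int.cast_sub, s1, s2, c1, c2]
    push_cast at e3 ⊢
    nlinarith [e3]

end

section

theorem transform {A : Type*} [CommRing A] (k : ℕ) (x z s : A) (N : ℕ → ℕ → A)
    (hx : z = x + s) :
    R k (fun i j => (-1) ^ (j - i) * (x + N i j)) 0 =
    R k (fun i j => if j = i then z + (N i i - s - if i + 1 < k then 1 else 0)
      else (-1) ^ (j - i - 1) * (N (i + 1) j - N i j)) 0 := by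
  set w1 : ℕ → ℕ → A := fun i j => (-1) ^ (j - i) * (x + N i j) with hw1
  set w2 : ℕ → ℕ → A := fun i j => if j = i then z + (N i i - s - if i + 1 < k then 1 else 0)
      else (-1) ^ (j - i - 1) * (N (i + 1) j - N i j) with hw2
  have key : ∀ m i : ℕ, k - i = m → R k w1 i = R k w2 i := by
    intro m
    induction m using Nat.strong_induction_on with
    | _ m ih =>
      intro i hi
      by_cases hik : i < k
      · have hsucc : ∀ j ∈ Finset.Ico i k, R k w1 (j + 1) = R k w2 (j + 1) := by
          intro j hj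
          rw [Finset.mem_Ico] at hj
          exact ih (k - (j + 1)) (by omega) (j + 1) rfl
        rw [R_of_lt w2 hik]
        have e2 : ∑ j ∈ Finset.Ico i k, w2 i j * R k w2 (j + 1) =
            ∑ j ∈ Finset.Ico i k, w2 i j * R k w1 (j + 1) :=
          Finset.sum_congr rfl fun j hj => by rw [hsucc j hj]
        rw [e2]
        rw [Finset.sum_eq_sum_Ico_succ_bot hik]
        rw [R_of_lt w1 hik, Finset.sum_eq_sum_Ico_succ_bot hik]
        by_cases h1 : i + 1 < k
        · have hg := R_of_lt w1 h1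
          have ew1 : w1 i i = x + N i i := by simp [hw1]
          have ew2 : w2 i i = z + (N i i - s - 1) := by simp [hw2, h1]
          have e3 : ∑ j ∈ Finset.Ico (i + 1) k, w2 i j * R k w1 (j + 1) =
              ∑ j ∈ Finset.Ico (i + 1) k, w1 i j * R k w1 (j + 1) + R k w1 (i + 1) := by
            rw [hg, ← Finset.sum_add_distrib]
            refine Finset.sum_congr rfl fun j hj => ?_
            rw [Finset.mem_Ico] at hj
            have hji : j ≠ i := by omega
            obtain ⟨d, hd⟩ : ∃ d, j = i + 1 + d := ⟨j - (i + 1), by omega⟩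
            have h4 : j - i = d + 1 := by omega
            have h5 : j - i - 1 = d := by omega
            have h6 : j - (i + 1) = d := by omega
            simp only [hw1, hw2, if_neg hji, h4, h6, Nat.add_sub_cancel, pow_succ]
            ring
          rw [e3, ew1, ew2, hx]
          ring
        · have hk : k = i + 1 := by omega
          have ew1 : w1 i i = x + N i i := by simp [hw1]
          have ew2 : w2 i i = z + (N i i - s) := by simp [hw2, h1]
          have e4 : Finset.Ico (i + 1) k = ∅ := by rw [hk]; simp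
          rw [e4, ew1, ew2, hx]
          simp only [Finset.sum_empty]
          ring
      · rw [R_of_ge w1 (by omega), R_of_ge w2 (by omega)]
  exact key _ 0 rfl

end

section

/-- telescoping sequence -/
def tele (k : ℕ) (G : ℕ → ℤ) (q : ℕ) : ℕ :=
  if q + 1 < k then (G q - G (q + 1)).toNat else (G q).toNat

theorem tele_sum (k : ℕ) (G : ℕ → ℤ) (t : ℕ) : ∀ i, i + t + 1 = k →
    (∀ j, i ≤ j → j + 1 < k → G (j + 1) ≤ G j) → (∀ j, j + 1 = k → 0 ≤ G j) →
    ((∑ q ∈ Ico i k, tele k G q : ℕ) : ℤ) = G i := by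
  induction t with
  | zero =>
    intro i hi h h0
    subst hi
    simp only [add_zero, Nat.Ico_succ_singleton, Finset.sum_singleton]
    unfold tele
    rw [if_neg (by omega)]
    exact Int.toNat_of_nonneg (h0 i rfl)
  | succ t ih =>
    intro i hi h h0
    rw [Finset.sum_eq_sum_Ico_succ_bot (by omega : i < k), Nat.cast_add,
      ih (i + 1) (by omega) (fun j hj => h j (by omega)) h0]
    unfold tele
    rw [if_pos (by omega), Int.toNat_of_nonneg (by have := h i le_rfl (by omega); linarith)]
    ring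

/-- the numbers -/
def nn (k : ℕ) (H : ℕ → ℤ) (d : ℕ → ℕ → ℤ) : ℕ → ℕ → ℕ
  | 0 => tele k H
  | i + 1 => tele k (d i)

theorem choose_n (k : ℕ) (hk : 1 ≤ k) (c : ℕ → ℤ) (d : ℕ → ℕ → ℤ)
    (h1 : ∀ i j, i < j → j + 1 < k → d i (j + 1) ≤ d i j)
    (h2 : ∀ i j, i < j → j < k → 0 ≤ d i j)
    (h3 : ∀ j, j + 1 < k → ∑ p ∈ range j, d p j - c j ≤
        ∑ p ∈ range (j + 1), d p (j + 1) - c (j + 1)) :
    ∃ (s : ℤ) (n : ℕ → ℕ → ℕ),
      (∀ i < k, ((∑ p ∈ range (i + 1), ∑ q ∈ Ico i k, n p q : ℕ) : ℤ) - s -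
        (if i + 1 < k then 1 else 0) = c i) ∧
      (∀ i j, i < j → j < k → ((∑ p ∈ range (i + 2), ∑ q ∈ Ico j k, n p q : ℕ) : ℤ) -
        ((∑ p ∈ range (i + 1), ∑ q ∈ Ico j k, n p q : ℕ) : ℤ) = d i j) := by
  obtain ⟨m, rfl⟩ : ∃ m, k = m + 1 := ⟨k - 1, by omega⟩
  let s : ℤ := ∑ p ∈ range m, d p m - c m
  let H : ℕ → ℤ := fun i => s + c i + (if i + 1 < m + 1 then 1 else 0) - ∑ p ∈ range i, d p i
  have hd : ∀ i j, i < j → j < m + 1 →
      ((∑ q ∈ Ico j (m + 1), nn (m + 1) H d (i + 1) q : ℕ) : ℤ) = d i j := by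
    intro i j hij hj
    exact tele_sum (m + 1) (d i) (m - j) j (by omega)
      (fun j' hj' hk' => h1 i j' (by omega) hk')
      (fun j' hj' => h2 i j' (by omega) (by omega))
  have hH : ∀ i, i < m + 1 → ((∑ q ∈ Ico i (m + 1), nn (m + 1) H d 0 q : ℕ) : ℤ) = H i := by
    intro i hi
    refine tele_sum (m + 1) H (m - i) i (by omega) (fun j _ hj => ?_) (fun j hj => ?_)
    · have h4 := h3 j hj
      simp only [H]
      rw [if_pos hj]
      split_ifs <;> linarith
    · have : j = m := by omega
      subst this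
      simp only [H, s]
      rw [if_neg (by omega)]
      linarith
  refine ⟨s, nn (m + 1) H d, fun i hi => ?_, fun i j hij hj => ?_⟩
  · rw [Finset.sum_range_succ', Nat.cast_add, hH i hi, Nat.cast_sum]
    rw [Finset.sum_congr rfl (fun p hp => hd p i (Finset.mem_range.1 hp) hi)]
    simp only [H]
    ring
  · rw [Finset.sum_range_succ _ (i + 1), Nat.cast_add, hd i j hij hj]
    ring

end

section

section Card
variable {α : Type} [Fintype α] [DecidableEq α]

/-- valid colourings of the path `i, …, i+m-1` -/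
def cpP (S : ℕ → Finset α) (m i : ℕ) (t : Fin m → α) : Prop :=
  (∀ a : Fin m, t a ∈ S (i + a.1)) ∧ ∀ a b : Fin m, a.1 + 1 = b.1 → t a ≠ t b

theorem cpP_cons (S : ℕ → Finset α) (m i : ℕ) (x : α) (t : Fin m → α) :
    cpP S (m + 1) i (Fin.cons x t : Fin (m + 1) → α) ↔
      x ∈ S i ∧ cpP S m (i + 1) t ∧ ∀ h : 0 < m, t ⟨0, h⟩ ≠ x := by
  constructor
  · rintro ⟨h1, h2⟩
    refine ⟨?_, ⟨?_, ?_⟩, ?_⟩
    · have := h1 0
      simpa using this
    · intro a
      have := h1 a.succ
      rw [Fin.cons_succ] at this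
      have e : i + (a.succ : Fin (m + 1)).1 = i + 1 + a.1 := by rw [Fin.val_succ]; omega
      rwa [e] at this
    · intro a b hab
      have := h2 a.succ b.succ (by rw [Fin.val_succ, Fin.val_succ, hab])
      rwa [Fin.cons_succ, Fin.cons_succ] at this
    · intro h
      have h3 := h2 0 (Fin.succ ⟨0, h⟩) (by simp)
      rw [Fin.cons_succ, Fin.cons_zero] at h3
      exact h3.symm
  · rintro ⟨hx, ⟨h1, h2⟩, h3⟩
    refine ⟨?_, ?_⟩
    · intro a
      refine Fin.cases ?_ (fun a => ?_) a
      · simpa using hx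
      · rw [Fin.cons_succ]
        have e : i + (a.succ : Fin (m + 1)).1 = i + 1 + a.1 := by rw [Fin.val_succ]; omega
        rw [e]
        exact h1 a
    · intro a b
      refine Fin.cases ?_ (fun b => ?_) b
      · intro hab
        simp at hab
      · refine Fin.cases ?_ (fun a => ?_) a
        · intro hab
          rw [Fin.cons_succ, Fin.cons_zero]
          rw [Fin.val_zero, Fin.val_succ] at hab
          have hm : 0 < m := Nat.lt_of_le_of_lt (Nat.zero_le _) b.2
          have hb : b = ⟨0, hm⟩ := by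
            apply Fin.ext
            show b.1 = 0
            omega
          rw [hb]
          exact (h3 hm).symm
        · intro hab
          rw [Fin.cons_succ, Fin.cons_succ]
          rw [Fin.val_succ, Fin.val_succ] at hab
          exact h2 a b (by omega)

open Classical in
/-- number of valid colourings -/
noncomputable def cpG (S : ℕ → Finset α) (m i : ℕ) : ℤ :=
  ∑ t : Fin m → α, if cpP S m i t then 1 else 0

open Classical in
/-- number of valid colourings with first value `x` -/
noncomputable def cpF (S : ℕ → Finset α) (m i : ℕ) (x : α) : ℤ :=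
  ∑ t : Fin m → α, if cpP S m i t ∧ ∃ h : 0 < m, t ⟨0, h⟩ = x then 1 else 0

theorem cpG_zero (S : ℕ → Finset α) (i : ℕ) : cpG S 0 i = 1 := by
  classical
  unfold cpG
  rw [Fintype.sum_eq_single (fun a => a.elim0)]
  · rw [if_pos]
    exact ⟨fun a => a.elim0, fun a => a.elim0⟩
  · intro t ht
    exact absurd (Subsingleton.elim _ _) ht

theorem cpF_zero (S : ℕ → Finset α) (i : ℕ) (x : α) : cpF S 0 i x = 0 := by
  classical
  unfold cpF
  apply Finset.sum_eq_zero
  intro t _
  rw [if_neg]
  rintro ⟨_, h, _⟩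
  exact absurd h (lt_irrefl 0)

theorem cp_sum_cons (m : ℕ) (f : (Fin (m + 1) → α) → ℤ) :
    ∑ t : Fin (m + 1) → α, f t = ∑ x : α, ∑ t : Fin m → α, f (Fin.cons x t) := by
  rw [← Fintype.sum_prod_type' (fun (x : α) (t : Fin m → α) => f (Fin.cons x t))]
  exact (Fintype.sum_equiv (Fin.consEquiv (fun _ : Fin (m + 1) => α)) _ _ (fun p => rfl)).symm

theorem cpF_eq (S : ℕ → Finset α) (m i : ℕ) (x : α) : cpF S (m + 1) i x =
    ∑ t : Fin m → α, open Classical in if cpP S (m + 1) i (Fin.cons x t) then 1 else 0 := by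
  classical
  unfold cpF
  rw [cp_sum_cons]
  rw [Finset.sum_eq_single x]
  · apply Finset.sum_congr rfl
    intro t _
    congr 1
    apply propext
    constructor
    · exact fun h => h.1
    · intro h
      exact ⟨h, Nat.succ_pos m, rfl⟩
  · intro y _ hyx
    apply Finset.sum_eq_zero
    intro t _
    rw [if_neg]
    rintro ⟨_, _, h⟩
    exact hyx h
  · intro h
    exact absurd (Finset.mem_univ x) h

theorem cpG_succ (S : ℕ → Finset α) (m i : ℕ) : cpG S (m + 1) i = ∑ x : α, cpF S (m + 1) i x := by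
  classical
  unfold cpG
  rw [cp_sum_cons]
  apply Finset.sum_congr rfl
  intro x _
  rw [cpF_eq]

theorem cpF_succ (S : ℕ → Finset α) (m i : ℕ) (x : α) : cpF S (m + 1) i x =
    if x ∈ S i then cpG S m (i + 1) - cpF S m (i + 1) x else 0 := by
  classical
  rw [cpF_eq]
  by_cases hx : x ∈ S i
  · rw [if_pos hx]
    unfold cpG cpF
    rw [← Finset.sum_sub_distrib]
    apply Finset.sum_congr rfl
    intro t _
    by_cases hP : cpP S m (i + 1) t
    · by_cases he : ∃ h : 0 < m, t ⟨0, h⟩ = x
      · rw [if_neg, if_pos hP, if_pos ⟨hP, he⟩]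
        · norm_num
        · rw [cpP_cons]
          rintro ⟨_, _, h3⟩
          obtain ⟨h, he⟩ := he
          exact h3 h he
      · rw [if_pos, if_pos hP, if_neg (fun h => he h.2)]
        · norm_num
        · rw [cpP_cons]
          exact ⟨hx, hP, fun h h' => he ⟨h, h'⟩⟩
    · rw [if_neg, if_neg hP, if_neg (fun h => hP h.1)]
      · norm_num
      · rw [cpP_cons]
        exact fun h => hP h.2.1
  · rw [if_neg hx]
    apply Finset.sum_eq_zero
    intro t _
    rw [if_neg]
    rw [cpP_cons]
    exact fun h => hx h.1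

theorem cpF_formula (S : ℕ → Finset α) (k : ℕ) (x : α) : ∀ m i : ℕ, i + m = k →
    cpF S m i x = ∑ j ∈ Finset.Ico i k, (-1) ^ (j - i) *
      (if ∀ l ∈ Icc i j, x ∈ S l then 1 else 0) * cpG S (k - (j + 1)) (j + 1) := by
  intro m
  induction m with
  | zero =>
    intro i hi
    have : i = k := by omega
    rw [this, Finset.Ico_self, Finset.sum_empty, cpF_zero]
  | succ m ih =>
    intro i hi
    have hik : i < k := by omega
    rw [cpF_succ, ih (i + 1) (by omega)]
    by_cases hx : x ∈ S i
    · rw [Finset.sum_eq_sum_Ico_succ_bot hik, if_pos hx]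
      have h1 : (∀ l ∈ Icc i i, x ∈ S l) := by
        intro l hl
        rw [Finset.Icc_self, Finset.mem_singleton] at hl
        rw [hl]; exact hx
      rw [if_pos h1]
      have e1 : k - (i + 1) = m := by omega
      rw [e1, Nat.sub_self, pow_zero, one_mul, one_mul, sub_eq_add_neg, ← Finset.sum_neg_distrib]
      congr 1
      apply Finset.sum_congr rfl
      intro j hj
      rw [Finset.mem_Ico] at hj
      have e2 : j - i = (j - (i + 1)) + 1 := by omega
      have e3 : (∀ l ∈ Icc i j, x ∈ S l) ↔ (∀ l ∈ Icc (i + 1) j, x ∈ S l) := by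
        constructor
        · intro h l hl
          rw [Finset.mem_Icc] at hl
          exact h l (Finset.mem_Icc.mpr ⟨by omega, hl.2⟩)
        · intro h l hl
          rw [Finset.mem_Icc] at hl
          by_cases hli : l = i
          · rw [hli]; exact hx
          · exact h l (Finset.mem_Icc.mpr ⟨by omega, hl.2⟩)
      rw [e2, pow_succ]
      simp only [e3]
      ring
    · rw [if_neg hx]
      symm
      have h1 : ∀ j ∈ Finset.Ico i k, ¬ (∀ l ∈ Icc i j, x ∈ S l) := by
        intro j hj h
        rw [Finset.mem_Ico] at hj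
        exact hx (h i (Finset.mem_Icc.mpr ⟨le_refl i, hj.1⟩))
      apply Finset.sum_eq_zero
      intro j hj
      rw [if_neg (h1 j hj)]
      ring

theorem cpG_formula (S : ℕ → Finset α) (k : ℕ) : ∀ m i : ℕ, i + m = k →
    cpG S m i = R k (fun i j => (-1) ^ (j - i) *
      ((univ.filter (fun a : α => ∀ l ∈ Icc i j, a ∈ S l)).card : ℤ)) i := by
  intro m
  induction m using Nat.strong_induction_on with
  | _ m ih =>
    intro i hi
    rcases Nat.eq_zero_or_pos m with hm | hm
    · rw [hm, cpG_zero, R_of_ge _ (by omega)]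
    · obtain ⟨m', rfl⟩ : ∃ m', m = m' + 1 := ⟨m - 1, by omega⟩
      have hik : i < k := by omega
      rw [cpG_succ, R_of_lt _ hik]
      simp_rw [cpF_formula S k _ (m' + 1) i hi]
      rw [Finset.sum_comm]
      apply Finset.sum_congr rfl
      intro j hj
      rw [Finset.mem_Ico] at hj
      rw [← ih (k - (j + 1)) (by omega) (j + 1) (by omega), ← Finset.sum_mul, ← Finset.mul_sum]
      congr 2
      rw [Finset.sum_boole]

end Card

theorem card_path {α : Type} [Fintype α] [DecidableEq α] (k : ℕ) (S : ℕ → Finset α) :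
    (Nat.card {t : Fin k → α // (∀ i : Fin k, t i ∈ S i.1) ∧
      ∀ i j : Fin k, i.1 + 1 = j.1 → t i ≠ t j} : ℤ) =
    R k (fun i j => (-1) ^ (j - i) *
      ((univ.filter (fun a : α => ∀ l ∈ Icc i j, a ∈ S l)).card : ℤ)) 0 := by
  classical
  rw [← cpG_formula S k k 0 (by omega)]
  unfold cpG
  rw [Finset.sum_boole, Nat.card_eq_fintype_card, Fintype.card_subtype]
  congr 2
  ext t
  simp only [Finset.mem_filter, Finset.mem_univ, true_and, cpP, zero_add]

end

section

theorem card_inter {B : Type} [Fintype B] [DecidableEq B] (q : ℕ) (c : B ↪ Fin q)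
    (S : ℕ → Finset B) (I : Finset ℕ) :
    ((univ.filter (fun a : Fin q => ∀ l ∈ I, a ∈ univ.filter
      (fun a' : Fin q => ∀ b, b ∉ S l → c b ≠ a'))).card : ℤ) =
    (q : ℤ) - Fintype.card B + ((univ.filter (fun b : B => ∀ l ∈ I, b ∈ S l)).card : ℤ) := by
  have h1 : (univ.filter (fun a : Fin q => ∀ l ∈ I, a ∈ univ.filter
      (fun a' : Fin q => ∀ b, b ∉ S l → c b ≠ a'))) =
      ((univ.filter (fun b : B => ¬ ∀ l ∈ I, b ∈ S l)).map c)ᶜ := by
    ext a
    simp only [Finset.mem_filter, Finset.mem_univ, true_and, Finset.mem_compl, Finset.mem_map,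
      not_exists, not_and]
    constructor
    · intro h b hb hc
      push Not at hb
      obtain ⟨l, hl, hbl⟩ := hb
      exact h l hl b hbl hc
    · intro h l hl b hb hc
      exact h b (fun hh => hb (hh l hl)) hc
  rw [h1]
  have h2 := Finset.card_add_card_compl ((univ.filter (fun b : B => ¬ ∀ l ∈ I, b ∈ S l)).map c)
  rw [Finset.card_map, Fintype.card_fin] at h2
  have h3 := Finset.card_filter_add_card_filter_not (s := (univ : Finset B)) (fun b : B => ∀ l ∈ I, b ∈ S l)
  rw [Finset.card_univ] at h3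
  omega

end

section

theorem card_colorings {B : Type} [Fintype B] [DecidableEq B] (S : ℕ → Finset B) (k q : ℕ) :
    Nat.card ((cliquePath S k).Coloring (Fin q)) =
    ∑ c : B ↪ Fin q, Nat.card {t : Fin k → Fin q //
      (∀ i : Fin k, t i ∈ univ.filter (fun a' : Fin q => ∀ b, b ∉ S i.1 → c b ≠ a')) ∧
      ∀ i j : Fin k, i.1 + 1 = j.1 → t i ≠ t j} := by
  let e : (cliquePath S k).Coloring (Fin q) ≃ Σ c : B ↪ Fin q, {t : Fin k → Fin q //
      (∀ i : Fin k, t i ∈ univ.filter (fun a' : Fin q => ∀ b, b ∉ S i.1 → c b ≠ a')) ∧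
      ∀ i j : Fin k, i.1 + 1 = j.1 → t i ≠ t j} :=
    { toFun := fun C => ⟨⟨fun b => C (Sum.inl b), fun b b' h => by
          by_contra hne
          exact C.valid (show (cliquePath S k).Adj (Sum.inl b) (Sum.inl b') from hne) h⟩,
        ⟨fun i => C (Sum.inr i), fun i => by
          simp only [Finset.mem_filter, Finset.mem_univ, true_and]
          intro b hb
          exact C.valid (show (cliquePath S k).Adj (Sum.inl b) (Sum.inr i) from hb),
        fun i j hij => C.valid (show (cliquePath S k).Adj (Sum.inr i) (Sum.inr j) from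
          Or.inl hij)⟩⟩
      invFun := fun p => SimpleGraph.Coloring.mk (Sum.elim p.1 p.2.1) (by
        intro v w h
        obtain ⟨c, t, ht1, ht2⟩ := p
        simp only [Finset.mem_filter, Finset.mem_univ, true_and] at ht1
        rcases v with b | i <;> rcases w with b' | j
        · simp only [Sum.elim_inl]
          exact fun he => h (c.injective he)
        · exact ht1 j b h
        · exact (ht1 i b' h).symm
        · rcases h with h | h
          · exact ht2 i j h
          · exact (ht2 j i h).symm)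
      left_inv := fun C => by
        apply DFunLike.ext
        rintro (b | i)
        · rfl
        · rfl
      right_inv := fun p => rfl }
  rw [Nat.card_congr e, Nat.card_sigma]

end

section

theorem card_types (k e : ℕ) (n : ℕ → ℕ → ℕ) (i j : ℕ) (hij : i ≤ j) (hj : j < k) :
    (univ.filter (fun b : (Σ p : Fin k × Fin k, Fin (n p.1.1 p.2.1)) ⊕ Fin e =>
      ∀ l ∈ Icc i j, b ∈ univ.filter
        (fun b : (Σ p : Fin k × Fin k, Fin (n p.1.1 p.2.1)) ⊕ Fin e =>
          ∃ x, b = Sum.inl x ∧ x.1.1.1 ≤ l ∧ l ≤ x.1.2.1))).card =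
    ∑ p ∈ range (i + 1), ∑ q ∈ Ico j k, n p q := by
  classical
  have h1 : (univ.filter (fun b : (Σ p : Fin k × Fin k, Fin (n p.1.1 p.2.1)) ⊕ Fin e =>
      ∀ l ∈ Icc i j, b ∈ univ.filter
        (fun b : (Σ p : Fin k × Fin k, Fin (n p.1.1 p.2.1)) ⊕ Fin e =>
          ∃ x, b = Sum.inl x ∧ x.1.1.1 ≤ l ∧ l ≤ x.1.2.1))) =
      (((univ : Finset (Fin k × Fin k)).filter (fun p => p.1.1 ≤ i ∧ j ≤ p.2.1)).sigma
        (fun p => (univ : Finset (Fin (n p.1.1 p.2.1))))).map
        ⟨Sum.inl, Sum.inl_injective⟩ := by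
    ext b
    rw [mem_filter, mem_map]
    constructor
    · rintro ⟨-, hb⟩
      obtain ⟨x, hx1, hx2, -⟩ := (mem_filter.1 (hb i (mem_Icc.2 ⟨le_rfl, hij⟩))).2
      obtain ⟨x', hx1', -, hx3'⟩ := (mem_filter.1 (hb j (mem_Icc.2 ⟨hij, le_rfl⟩))).2
      have hxx : x = x' := Sum.inl_injective (hx1.symm.trans hx1')
      refine ⟨x, ?_, hx1.symm⟩
      rw [mem_sigma]
      refine ⟨mem_filter.2 ⟨mem_univ _, hx2, ?_⟩, mem_univ _⟩
      rw [hxx]; exact hx3'
    · rintro ⟨x, hx, rfl⟩
      rw [mem_sigma, mem_filter] at hx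
      refine ⟨mem_univ _, fun l hl => ?_⟩
      rw [mem_Icc] at hl
      exact mem_filter.2 ⟨mem_univ _, x, rfl, hx.1.2.1.trans hl.1, hl.2.trans hx.1.2.2⟩
  rw [h1, card_map, card_sigma]
  rw [← Finset.sum_product' (range (i + 1)) (Ico j k) (fun p q => n p q)]
  refine Finset.sum_nbij (fun p => (p.1.1, p.2.1)) ?_ ?_ ?_ ?_
  · intro p hp
    rw [mem_filter] at hp
    rw [mem_product, mem_range, mem_Ico]
    exact ⟨by have := hp.2.1; show p.1.1 < i + 1; omega, hp.2.2, p.2.2⟩
  · intro p _ p' _ hpp
    have e1 := congrArg Prod.fst hpp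
    have e2 := congrArg Prod.snd hpp
    exact Prod.ext (Fin.ext e1) (Fin.ext e2)
  · rintro ⟨p, q⟩ hpq
    have hpq' := mem_product.1 (mem_coe.1 hpq)
    rw [mem_range, mem_Ico] at hpq'
    have hp : p < k := by have := hpq'.1; simp only at this; omega
    refine ⟨(⟨p, hp⟩, ⟨q, hpq'.2.2⟩), ?_, rfl⟩
    rw [mem_coe, mem_filter]
    refine ⟨mem_univ _, ?_, hpq'.2.1⟩
    have := hpq'.1
    show p ≤ i
    simp only at this
    omega
  · intro p _
    rw [card_univ, Fintype.card_fin]

end

section

theorem transport {V : Type} [Fintype V] (G : SimpleGraph V) :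
    ∃ (m : ℕ) (G' : SimpleGraph (Fin m)), ∀ q : ℕ,
      Nat.card (G'.Coloring (Fin q)) = Nat.card (G.Coloring (Fin q)) := by
  obtain ⟨e⟩ : Nonempty (Fin (Fintype.card V) ≃ V) := ⟨(Fintype.equivFin V).symm⟩
  refine ⟨Fintype.card V, G.comap e, fun q => ?_⟩
  refine Nat.card_congr
    { toFun := fun c => SimpleGraph.Coloring.mk (fun v => c (e.symm v)) ?_
      invFun := fun c => SimpleGraph.Coloring.mk (fun v => c (e v)) ?_
      left_inv := ?_
      right_inv := ?_ }
  · intro v w h
    refine c.valid ?_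
    rw [SimpleGraph.comap_adj, e.apply_symm_apply, e.apply_symm_apply]
    exact h
  · intro v w h
    exact c.valid h
  · intro c
    refine DFunLike.ext _ _ fun v => ?_
    change c (e.symm (e v)) = c v
    rw [e.symm_apply_apply]
  · intro c
    refine DFunLike.ext _ _ fun v => ?_
    change c (e (e.symm v)) = c v
    rw [e.apply_symm_apply]

end

end Pool.Agent.Helper778.AN
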