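import Pool.Agent.Helper778.AN.Lemmas

set_option autoImplicit false
set_option maxHeartbeats 4000000

namespace Pool.Agent.Helper778.AN

open Polynomial Finset

theorem hspan_of (k e : ℕ) (he : 1 ≤ e) (hek : e < k) (P : ℚ[X])
    (hP : ∀ m, k - e ≤ m → P.coeff m = 0) :
    ∃ a : ℕ → ℚ, ∑ i ∈ range (k - e), C (a i) *
      (L (om k) i * R k (om k) (i + e + 1)) = P := by
  obtain ⟨hlm, hrm⟩ := monic_facts k (L (om k)) (R k (om k)) (L_zero _) (R_of_ge _ le_rfl)
    (L_om_rec k) (R_om_rec k)
  have key : ∀ s : ℕ, s < k - e → ∃ p : ℚ[X], p.natDegree ≤ s ∧ 0 < p.coeff s ∧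
      ∀ i : ℕ, i + (e + 1) ≤ k →
        (L (om k) i * R k (om k) (i + (e + 1))).coeff (k - (e + 1) - s) = p.eval (i : ℚ) := by
    intro s hs
    exact coeff_poly k (L (om k)) (R k (om k)) (L_zero _) (R_of_ge _ le_rfl)
      (L_om_rec k) (R_om_rec k) hlm hrm antidiff lead_alg s (e + 1) (by omega) (by omega)
  choose! p hp1 hp2 hp3 using key
  refine span_of_poly (k - e) (fun i => L (om k) i * R k (om k) (i + e + 1)) p
    (fun s hs => ⟨hp1 s hs, (hp2 s hs).ne'⟩) ?_ ?_ P hP
  · intro s hs i hi
    have h := hp3 s hs i (by omega)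
    have e1 : k - e - 1 - s = k - (e + 1) - s := by omega
    rw [e1]
    exact h
  · intro i hi m hm
    apply coeff_eq_zero_of_natDegree_lt
    have h1 := (hlm i).1
    have h2 := (hrm (i + e + 1) (by omega)).1
    have h3 := natDegree_mul_le (p := L (om k) i) (q := R k (om k) (i + e + 1))
    omega

theorem algebra_main (k : ℕ) (hk : 1 ≤ k) (f : ℤ[X]) (hf : f.Monic) (hd : f.natDegree = k) :
    ∃ (c : ℕ → ℤ) (d : ℕ → ℕ → ℤ),
      (∀ i j, i < j → j + 1 < k → d i (j + 1) ≤ d i j) ∧
      (∀ i j, i < j → j < k → 0 ≤ d i j) ∧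
      (∀ j, j + 1 < k → ∑ p ∈ range j, d p j - c j ≤
        ∑ p ∈ range (j + 1), d p (j + 1) - c (j + 1)) ∧
      R k (fun i j => if j = i then X + C (c i) else (-1) ^ (j - i - 1) * C (d i j)) 0 = f := by
  set F : ℚ[X] := f.map (Int.castRingHom ℚ) with hF
  have hFm : F.Monic := hf.map _
  have hFd : F.natDegree = k := by rw [hF, hf.natDegree_map, hd]
  have hQ : ∀ y : ℕ → ℕ → ℚ, Q (R k (W k F y) 0) F := by
    intro y
    have h := Q_R k (W k F y) (w0 k F) (fun i j hij hj => (W_facts k hk F y i j hij hj).2.2) 0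
    rwa [R_w0 k hk F hFm hFd] at h
  have hR : ∀ (y : ℕ → ℕ → ℚ) (i : ℕ), i ≤ k → (R k (W k F y) i).natDegree ≤ k - i ∧
      (R k (W k F y) i).coeff (k - i) = R k (om k) i := by
    intro y i hi
    have h := R_top k (W k F y) (fun i j hij hj => (W_facts k hk F y i j hij hj).1) i hi
    refine ⟨h.1, h.2.trans ?_⟩
    exact R_congr k _ _ (fun i j hij hj => (W_facts k hk F y i j hij hj).2.1) i
  have hL : ∀ (y : ℕ → ℕ → ℚ) (i : ℕ), i ≤ k → (L (W k F y) i).natDegree ≤ i ∧
      (L (W k F y) i).coeff i = L (om k) i := by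
    intro y i hi
    have h := L_top i (W k F y)
      (fun a b hab hb => (W_facts k hk F y a b hab (by omega)).1)
    refine ⟨h.1, h.2.trans ?_⟩
    exact L_congr i _ _ (fun a b hab hb => (W_facts k hk F y a b hab (by omega)).2.1)
  have hbase : ∀ y, (R k (W k F y) 0).coeff k = C (F.coeff k) * X ^ k := by
    intro y
    have h := (hR y 0 (by omega)).2
    rw [Nat.sub_zero] at h
    rw [h, ← L_eq_R, laguerre k (L (om k)) (L_zero _) (L_om_rec k)]
    have : F.coeff k = 1 := by
      have := hFm.coeff_natDegree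
      rwa [hFd] at this
    rw [this]
    simp
  have hind : ∀ e, e < k → ∃ y : ℕ → ℕ → ℚ, ∀ e' ≤ e,
      (R k (W k F y) 0).coeff (k - e') = C (F.coeff (k - e')) * X ^ (k - e') := by
    intro e
    induction e with
    | zero =>
      intro _
      refine ⟨fun _ _ => 0, fun e' he' => ?_⟩
      obtain rfl : e' = 0 := by omega
      exact hbase _
    | succ e ih =>
      intro he
      obtain ⟨y, hy⟩ := ih (by omega)
      exact step k F y (e + 1) (by omega) he (fun e' he' => hy e' (by omega))
        (fun P hP => hspan_of k (e + 1) (by omega) he P hP) (fun w w' => R_sub k w w') hR hL hQ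
  obtain ⟨y, hy⟩ := hind (k - 1) (by omega)
  have hall : ∀ m, (R k (W k F y) 0).coeff m = C (F.coeff m) * X ^ m := by
    intro m
    by_cases hm : m ≤ k
    · rcases Nat.eq_zero_or_pos m with rfl | hm0
      · ext l
        have h := hQ y 0 l (Nat.zero_le l)
        rw [h]
        by_cases hl : l = 0
        · subst hl; simp
        · rw [pow_zero, mul_one, coeff_C, if_neg hl]

      · have h := hy (k - m) (by omega)
        have e1 : k - (k - m) = m := by omega
        rwa [e1] at h
    · have h1 := (hR y 0 (by omega)).1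
      rw [coeff_eq_zero_of_natDegree_lt (by omega), coeff_eq_zero_of_natDegree_lt (by omega)]
      simp
  obtain ⟨t, c, d, ht, hc, hdd, h1, h2, h3⟩ := int_data k hk f y
  refine ⟨c, d, h1, h2, h3, ?_⟩
  have hev := eval_family k hk F hFd y hall (fun φ w i => map_R φ k w i) t ht
  have hinj : Function.Injective (Polynomial.map (Int.castRingHom ℚ)) :=
    Polynomial.map_injective _ (RingHom.injective_int _)
  apply hinj
  rw [← hF, ← hev]
  rw [← coe_mapRingHom, map_R]
  apply R_congr
  intro i j hij hj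
  by_cases hji : j = i
  · subst hji
    simp only [if_true, coe_mapRingHom, Polynomial.map_add, map_X, Polynomial.map_C]
    rw [← hc j hj]
    simp
  · simp only [if_neg hji, coe_mapRingHom, Polynomial.map_mul, Polynomial.map_pow,
      Polynomial.map_neg, Polynomial.map_one, Polynomial.map_C]
    rw [← hdd i j (by omega) hj]
    simp

theorem count_formula {B : Type} [Fintype B] [DecidableEq B] (S : ℕ → Finset B) (k q : ℕ) :
    (Nat.card ((cliquePath S k).Coloring (Fin q)) : ℤ) =
    (∏ i ∈ range (Fintype.card B), ((q : ℤ) - i)) *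
      R k (fun i j => (-1) ^ (j - i) * (((q : ℤ) - Fintype.card B) +
        ((univ.filter (fun b : B => ∀ l ∈ Icc i j, b ∈ S l)).card : ℤ))) 0 := by
  rw [card_colorings]
  push_cast
  rw [Finset.sum_congr rfl (g := fun _ => R k (fun i j => (-1) ^ (j - i) *
      (((q : ℤ) - Fintype.card B) +
        ((univ.filter (fun b : B => ∀ l ∈ Icc i j, b ∈ S l)).card : ℤ))) 0)]
  · rw [Finset.sum_const, Finset.card_univ, Fintype.card_embedding_eq, Fintype.card_fin,
      nsmul_eq_mul]
    congr 1
    by_cases hq : Fintype.card B ≤ q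
    · rw [Nat.descFactorial_eq_prod_range]
      push_cast
      apply Finset.prod_congr rfl
      intro i hi
      rw [mem_range] at hi
      rw [Nat.cast_sub (by omega)]
    · rw [Nat.descFactorial_eq_zero_iff_lt.mpr (by omega)]
      symm
      rw [Nat.cast_zero]
      apply Finset.prod_eq_zero (i := q)
      · rw [mem_range]; omega
      · simp
  · intro c _
    have h := card_path (α := Fin q) k
      (fun i => univ.filter (fun a' : Fin q => ∀ b, b ∉ S i → c b ≠ a'))
    rw [h]
    apply R_congr
    intro i j _ _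
    rw [card_inter q c S (Icc i j)]

end Pool.Agent.Helper778.AN
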